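import Mathlib

/-!
The triangle wave `fold ℓ x` of period `2ℓ`, and differentiation of `b(x) Φ(Q(x))` where `b` is an
even periodic function with kinks at the multiples of `ℓ` and `Q` is odd and periodic.
-/

set_option autoImplicit false

open Real Filter Topology Set

namespace Pool.Agent.Helper72_Shell

/-- The triangle wave. -/
noncomputable def fold (ℓ x : ℝ) : ℝ := ℓ / π * Real.arccos (Real.cos (π / ℓ * x))

variable {ℓ : ℝ}

theorem fold_continuous (ℓ : ℝ) : Continuous (fold ℓ) := by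
  unfold fold
  exact continuous_const.mul (Real.continuous_arccos.comp (by fun_prop))

theorem fold_nonneg (hℓ : 0 < ℓ) (x : ℝ) : 0 ≤ fold ℓ x := by
  unfold fold
  have := Real.arccos_nonneg (Real.cos (π / ℓ * x))
  have := Real.pi_pos
  positivity

theorem fold_le (hℓ : 0 < ℓ) (x : ℝ) : fold ℓ x ≤ ℓ := by
  unfold fold
  have h1 := Real.arccos_le_pi (Real.cos (π / ℓ * x))
  have h2 := Real.pi_pos
  have h3 : 0 < ℓ / π := by positivity
  calc ℓ / π * Real.arccos (Real.cos (π / ℓ * x)) ≤ ℓ / π * π := mul_le_mul_of_nonneg_left h1 h3.le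
    _ = ℓ := by field_simp

theorem fold_neg (ℓ x : ℝ) : fold ℓ (-x) = fold ℓ x := by
  unfold fold
  rw [mul_neg, Real.cos_neg]

theorem fold_per (hℓ : 0 < ℓ) (x : ℝ) : fold ℓ (x + 2 * ℓ) = fold ℓ x := by
  unfold fold
  have : π / ℓ * (x + 2 * ℓ) = π / ℓ * x + 2 * π := by field_simp
  rw [this, Real.cos_add_two_pi]

theorem fold_eq (hℓ : 0 < ℓ) {x : ℝ} (h0 : 0 ≤ x) (h1 : x ≤ ℓ) : fold ℓ x = x := by
  unfold fold
  have hπ := Real.pi_pos
  rw [Real.arccos_cos (by positivity)]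
  · field_simp
  · rw [div_mul_eq_mul_div, div_le_iff₀ hℓ]
    exact mul_le_mul_of_nonneg_left h1 hπ.le

theorem cos_fold (hℓ : 0 < ℓ) (x : ℝ) : Real.cos (π / ℓ * fold ℓ x) = Real.cos (π / ℓ * x) := by
  unfold fold
  have hπ := Real.pi_pos
  have h1 : π / ℓ * (ℓ / π * Real.arccos (Real.cos (π / ℓ * x))) =
      Real.arccos (Real.cos (π / ℓ * x)) := by field_simp
  rw [h1, Real.cos_arccos (Real.neg_one_le_cos _) (Real.cos_le_one _)]

theorem sin_fold_nonneg (hℓ : 0 < ℓ) (x : ℝ) : 0 ≤ Real.sin (π / ℓ * fold ℓ x) := by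
  have hπ := Real.pi_pos
  apply Real.sin_nonneg_of_nonneg_of_le_pi
  · have := fold_nonneg hℓ x
    positivity
  · rw [div_mul_eq_mul_div, div_le_iff₀ hℓ]
    exact mul_le_mul_of_nonneg_left (fold_le hℓ x) hπ.le

theorem fold_cases (hℓ : 0 < ℓ) (x : ℝ) : ∃ k : ℤ,
    (x = k * (2 * ℓ) + fold ℓ x ∧ 0 ≤ Real.sin (π / ℓ * x)) ∨
    (x = k * (2 * ℓ) - fold ℓ x ∧ Real.sin (π / ℓ * x) ≤ 0) := by
  have hπ := Real.pi_pos
  have h := cos_fold hℓ x
  rw [Real.cos_eq_cos_iff] at h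
  obtain ⟨k, hk⟩ := h
  have hs := sin_fold_nonneg hℓ x
  refine ⟨k, ?_⟩
  rcases hk with hk | hk
  · left
    have e : x = k * (2 * ℓ) + fold ℓ x := by
      have h2 : π / ℓ * x * (ℓ / π) = (2 * k * π + π / ℓ * fold ℓ x) * (ℓ / π) := by rw [hk]
      have h3 : π / ℓ * x * (ℓ / π) = x := by field_simp
      have h4 : (2 * (k : ℝ) * π + π / ℓ * fold ℓ x) * (ℓ / π) = k * (2 * ℓ) + fold ℓ x := by
        field_simp
      rw [h3, h4] at h2
      exact h2
    refine ⟨e, ?_⟩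
    rw [hk]
    have : Real.sin (2 * k * π + π / ℓ * fold ℓ x) = Real.sin (π / ℓ * fold ℓ x) := by
      rw [add_comm, show (2 : ℝ) * k * π = k * (2 * π) by ring]
      exact Real.sin_add_int_mul_two_pi _ k
    rw [this]
    exact hs
  · right
    have e : x = k * (2 * ℓ) - fold ℓ x := by
      have h2 : π / ℓ * x * (ℓ / π) = (2 * k * π - π / ℓ * fold ℓ x) * (ℓ / π) := by rw [hk]
      have h3 : π / ℓ * x * (ℓ / π) = x := by field_simp
      have h4 : (2 * (k : ℝ) * π - π / ℓ * fold ℓ x) * (ℓ / π) = k * (2 * ℓ) - fold ℓ x := by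
        field_simp
      rw [h3, h4] at h2
      exact h2
    refine ⟨e, ?_⟩
    rw [hk]
    have : Real.sin (2 * k * π - π / ℓ * fold ℓ x) = -Real.sin (π / ℓ * fold ℓ x) := by
      rw [← Real.sin_neg, show (2 : ℝ) * k * π - π / ℓ * fold ℓ x =
        -(π / ℓ * fold ℓ x) + k * (2 * π) by ring]
      exact Real.sin_add_int_mul_two_pi _ k
    rw [this]
    linarith

/-- sign of the slope of `fold` -/
noncomputable def sg (ℓ x : ℝ) : ℝ := if 0 < Real.sin (π / ℓ * x) then 1 else -1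

theorem fold_hasDerivAt (hℓ : 0 < ℓ) {x : ℝ} (hx : Real.sin (π / ℓ * x) ≠ 0) :
    HasDerivAt (fold ℓ) (sg ℓ x) x := by
  have hπ := Real.pi_pos
  have hc1 : Real.cos (π / ℓ * x) ≠ -1 := by
    intro h
    have := Real.sin_sq_add_cos_sq (π / ℓ * x)
    rw [h] at this
    apply hx
    have : Real.sin (π / ℓ * x) ^ 2 = 0 := by linarith
    exact pow_eq_zero_iff (two_ne_zero) |>.mp this
  have hc2 : Real.cos (π / ℓ * x) ≠ 1 := by
    intro h
    have := Real.sin_sq_add_cos_sq (π / ℓ * x)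
    rw [h] at this
    apply hx
    have : Real.sin (π / ℓ * x) ^ 2 = 0 := by linarith
    exact pow_eq_zero_iff (two_ne_zero) |>.mp this
  have h1 : HasDerivAt (fun x : ℝ => π / ℓ * x) (π / ℓ) x := by
    simpa using (hasDerivAt_id x).const_mul (π / ℓ)
  have h2 := h1.cos
  have h3 := (Real.hasDerivAt_arccos hc1 hc2).comp x h2
  have h4 := h3.const_mul (ℓ / π)
  have h5 : ℓ / π * (-(1 / √(1 - Real.cos (π / ℓ * x) ^ 2)) * (-Real.sin (π / ℓ * x) * (π / ℓ))) =
      sg ℓ x := by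
    have e1 : 1 - Real.cos (π / ℓ * x) ^ 2 = Real.sin (π / ℓ * x) ^ 2 := by
      have := Real.sin_sq_add_cos_sq (π / ℓ * x)
      linarith
    rw [e1, Real.sqrt_sq_eq_abs]
    unfold sg
    have hgen : ∀ S : ℝ, S ≠ 0 → ℓ / π * (-(1 / |S|) * (-S * (π / ℓ))) =
        if 0 < S then (1 : ℝ) else -1 := by
      intro S hS
      split_ifs with hp
      · rw [abs_of_pos hp]
        field_simp
      · have hn : S < 0 := lt_of_le_of_ne (not_lt.mp hp) hS
        rw [abs_of_neg hn]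
        field_simp
    exact hgen _ hx
  rw [h5] at h4
  exact h4

theorem sg_sq (ℓ x : ℝ) : sg ℓ x * sg ℓ x = 1 := by
  unfold sg
  split_ifs <;> ring

/-- An odd periodic function in terms of its values at `fold`. -/
theorem odd_fold (hℓ : 0 < ℓ) {Q : ℝ → ℝ} (hodd : ∀ x, Q (-x) = -Q x)
    (hper : Function.Periodic Q (2 * ℓ)) {x : ℝ} (hx : Real.sin (π / ℓ * x) ≠ 0) :
    Q x = sg ℓ x * Q (fold ℓ x) := by
  obtain ⟨k, hk | hk⟩ := fold_cases hℓ x
  · have hp : 0 < Real.sin (π / ℓ * x) := lt_of_le_of_ne hk.2 (Ne.symm hx)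
    have e1 : Q x = Q (fold ℓ x) := by
      conv_lhs => rw [hk.1, add_comm]
      exact hper.int_mul k (fold ℓ x)
    unfold sg
    rw [if_pos hp, one_mul]
    exact e1
  · have e1 : Q x = -Q (fold ℓ x) := by
      conv_lhs => rw [hk.1, sub_eq_add_neg, add_comm]
      rw [hper.int_mul k (-fold ℓ x), hodd]
    unfold sg
    rw [if_neg (not_lt.mpr hk.2), e1]
    ring

/-- An odd periodic function vanishes at the kinks. -/
theorem odd_kink (hℓ : 0 < ℓ) {Q : ℝ → ℝ} (hodd : ∀ x, Q (-x) = -Q x)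
    (hper : Function.Periodic Q (2 * ℓ)) {x : ℝ} (hx : Real.sin (π / ℓ * x) = 0) :
    Q x = 0 ∧ Q (fold ℓ x) = 0 := by
  have hπ := Real.pi_pos
  rw [Real.sin_eq_zero_iff] at hx
  obtain ⟨n, hn⟩ := hx
  have e : x = n * ℓ := by
    have : π / ℓ * x * (ℓ / π) = n * π * (ℓ / π) := by rw [hn]
    have h3 : π / ℓ * x * (ℓ / π) = x := by field_simp
    have h4 : (n : ℝ) * π * (ℓ / π) = n * ℓ := by field_simp
    rw [h3, h4] at this
    exact this
  have hQx : Q x = 0 := by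
    have h1 : Q (-x) = Q x := by
      have h2 : -x = x + ((-n : ℤ) : ℝ) * (2 * ℓ) := by
        rw [e]; push_cast; ring
      conv_lhs => rw [h2]
      exact hper.int_mul (-n) x
    have h3 := hodd x
    linarith
  refine ⟨hQx, ?_⟩
  obtain ⟨k, hk | hk⟩ := fold_cases hℓ x
  · have e1 : Q x = Q (fold ℓ x) := by
      conv_lhs => rw [hk.1, add_comm]
      exact hper.int_mul k (fold ℓ x)
    rw [← e1, hQx]
  · have e1 : Q x = -Q (fold ℓ x) := by
      conv_lhs => rw [hk.1, sub_eq_add_neg, add_comm]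
      rw [hper.int_mul k (-fold ℓ x), hodd]
    linarith

/-- Product rule at a point where the second factor vanishes and the first is only continuous. -/
theorem hasDerivAt_mul_of_zero {b F : ℝ → ℝ} {x F' : ℝ} (hb : ContinuousAt b x)
    (hF : HasDerivAt F F' x) (h0 : F x = 0) : HasDerivAt (fun y => b y * F y) (b x * F') x := by
  rw [hasDerivAt_iff_tendsto_slope] at hF ⊢
  have h1 : Tendsto b (𝓝[≠] x) (𝓝 (b x)) := hb.tendsto.mono_left nhdsWithin_le_nhds
  refine (h1.mul hF).congr' ?_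
  filter_upwards [self_mem_nhdsWithin] with y hy
  have hy' : y - x ≠ 0 := sub_ne_zero.mpr hy
  rw [slope_def_field, slope_def_field, h0]
  field_simp
  ring

/-- The derivative of `b(x) Φ(Q(x))`. -/
theorem hasDerivAt_weight (hℓ : 0 < ℓ) {b b1 Φ ω Q : ℝ → ℝ} {Q' x : ℝ} (hb : Continuous b)
    (hb1 : ∀ x, Real.sin (π / ℓ * x) ≠ 0 → HasDerivAt b (sg ℓ x * b1 x) x)
    (hΦ : ∀ s, HasDerivAt Φ (ω s) s) (hΦodd : ∀ s, Φ (-s) = -Φ s)
    (hodd : ∀ x, Q (-x) = -Q x) (hper : Function.Periodic Q (2 * ℓ))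
    (hQ : HasDerivAt Q Q' x) :
    HasDerivAt (fun x => b x * Φ (Q x)) (b1 x * Φ (Q (fold ℓ x)) + b x * (ω (Q x) * Q')) x := by
  have hF : HasDerivAt (fun x => Φ (Q x)) (ω (Q x) * Q') x := (hΦ (Q x)).comp x hQ
  have hΦ0 : Φ 0 = 0 := by
    have := hΦodd 0
    rw [neg_zero] at this
    linarith
  by_cases hx : Real.sin (π / ℓ * x) = 0
  · obtain ⟨h1, h2⟩ := odd_kink hℓ hodd hper hx
    rw [h2, hΦ0, mul_zero, zero_add]
    apply hasDerivAt_mul_of_zero hb.continuousAt hF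
    simp only [h1, hΦ0]
  · have h1 := (hb1 x hx).mul hF
    have h2 := odd_fold hℓ hodd hper hx
    have h3 : sg ℓ x * Φ (Q x) = Φ (Q (fold ℓ x)) := by
      have e1 := sg_sq ℓ x
      rw [h2]
      have : Φ (sg ℓ x * Q (fold ℓ x)) = sg ℓ x * Φ (Q (fold ℓ x)) := by
        unfold sg
        split_ifs
        · rw [one_mul, one_mul]
        · rw [neg_one_mul, neg_one_mul, hΦodd]
      rw [this, ← mul_assoc, e1, one_mul]
    have h4 : sg ℓ x * b1 x * Φ (Q x) + b x * (ω (Q x) * Q') =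
        b1 x * Φ (Q (fold ℓ x)) + b x * (ω (Q x) * Q') := by
      rw [← h3]; ring
    rw [h4] at h1
    exact h1

end Pool.Agent.Helper72_Shell
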