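import Pool.Agent.Helper39_Wave.Exist
import Pool.Agent.Helper72_Shell.Fold

/-!
Existence of a `C¹` solution of the truncated characteristic equation with a variable coefficient
having kinks at the multiples of `ℓ`, by Picard iteration.
-/

set_option autoImplicit false

open Real Filter Topology Set MeasureTheory

namespace Pool.Agent.Helper72_Shell

open Pool.Agent.Helper39_Wave (integral_exp_abs_le abs_integral_le_exp tendstoLocallyUniformly_of_le
  hasDerivAt_param_integral)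

/-- The data of the truncated problem. -/
structure Setup (κ K B ℓ K1 : ℝ) (b b1 Φ ω p0 p1 : ℝ → ℝ) : Prop where
  kpos : 0 < κ
  Kpos : 0 < K
  Bnn : 0 ≤ B
  lpos : 0 < ℓ
  K1nn : 0 ≤ K1
  bcont : Continuous b
  bper : ∀ x, b (x + 2 * ℓ) = b x
  bnn : ∀ x, 0 ≤ b x
  bhi : ∀ x, b x ≤ 1
  b1cont : Continuous b1
  b1K : ∀ x, |b1 x| ≤ K1
  hb : ∀ x, Real.sin (π / ℓ * x) ≠ 0 → HasDerivAt b (sg ℓ x * b1 x) x
  hΦ : ∀ s, HasDerivAt Φ (ω s) s
  hΦodd : ∀ s, Φ (-s) = -Φ s
  hω : UniformContinuous ω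
  hωK : ∀ s, |ω s| ≤ K
  hp : ∀ y, HasDerivAt p0 (p1 y) y
  hpper : ∀ y, p0 (y + 2 * ℓ) = p0 y
  hp1 : Continuous p1
  hp0B : ∀ y, |p0 y| ≤ B
  hp1B : ∀ y, |p1 y| ≤ B

/-- Picard iterates. -/
noncomputable def It (κ : ℝ) (b Φ p0 : ℝ → ℝ) : ℕ → ℝ → ℝ → ℝ
  | 0 => fun _ y => p0 y
  | n + 1 => fun t y => p0 y - κ * ∫ s in (0 : ℝ)..t,
      b (y - s) * Φ (It κ b Φ p0 n s y - It κ b Φ p0 n s (2 * s - y))

/-- Iterates of the derivative. -/
noncomputable def Dt (κ ℓ : ℝ) (b b1 Φ ω p0 p1 : ℝ → ℝ) : ℕ → ℝ → ℝ → ℝ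
  | 0 => fun _ y => p1 y
  | n + 1 => fun t y => p1 y - κ * ∫ s in (0 : ℝ)..t,
      (b1 (y - s) * Φ (It κ b Φ p0 n s (s + fold ℓ (y - s)) - It κ b Φ p0 n s (s - fold ℓ (y - s))) +
        b (y - s) * (ω (It κ b Φ p0 n s y - It κ b Φ p0 n s (2 * s - y)) *
        (Dt κ ℓ b b1 Φ ω p0 p1 n s y + Dt κ ℓ b b1 Φ ω p0 p1 n s (2 * s - y))))

namespace Setup

variable {κ K B ℓ K1 : ℝ} {b b1 Φ ω p0 p1 : ℝ → ℝ}

theorem cΦ (h : Setup κ K B ℓ K1 b b1 Φ ω p0 p1) : Continuous Φ :=
  continuous_iff_continuousAt.mpr fun s => (h.hΦ s).continuousAt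

theorem cp0 (h : Setup κ K B ℓ K1 b b1 Φ ω p0 p1) : Continuous p0 :=
  continuous_iff_continuousAt.mpr fun s => (h.hp s).continuousAt

theorem lip (h : Setup κ K B ℓ K1 b b1 Φ ω p0 p1) (x y : ℝ) : |Φ y - Φ x| ≤ K * |y - x| := by
  have key := Convex.norm_image_sub_le_of_norm_hasDerivWithin_le (f := Φ)
    (f' := ω) (s := Set.univ) (x := x) (y := y)
    (C := K) (fun x _ => (h.hΦ x).hasDerivWithinAt)
    (fun x _ => by rw [Real.norm_eq_abs]; exact h.hωK x) convex_univ (mem_univ _) (mem_univ _)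
  simpa [Real.norm_eq_abs] using key

theorem Φ_zero (h : Setup κ K B ℓ K1 b b1 Φ ω p0 p1) : Φ 0 = 0 := by
  have := h.hΦodd 0
  rw [neg_zero] at this
  linarith

theorem Φ_abs (h : Setup κ K B ℓ K1 b b1 Φ ω p0 p1) (x : ℝ) : |Φ x| ≤ K * |x| := by
  have := h.lip 0 x
  rw [h.Φ_zero, sub_zero, sub_zero] at this
  exact this

/-- multiplication by the weight -/
theorem bmul (h : Setup κ K B ℓ K1 b b1 Φ ω p0 p1) {x u v : ℝ} (huv : |u| ≤ v) :
    |b x * u| ≤ v := by
  rw [abs_mul, abs_of_nonneg (h.bnn x)]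
  calc b x * |u| ≤ 1 * |u| := mul_le_mul_of_nonneg_right (h.bhi x) (abs_nonneg _)
    _ = |u| := one_mul _
    _ ≤ v := huv

theorem cIt (h : Setup κ K B ℓ K1 b b1 Φ ω p0 p1) (n : ℕ) :
    Continuous (fun z : ℝ × ℝ => It κ b Φ p0 n z.1 z.2) := by
  induction n with
  | zero => exact h.cp0.comp continuous_snd
  | succ n ih =>
    have h1 : Continuous (fun z : ℝ × ℝ => ∫ s in (0 : ℝ)..z.1,
        b (z.2 - s) * Φ (It κ b Φ p0 n s z.2 - It κ b Φ p0 n s (2 * s - z.2))) := by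
      apply intervalIntegral.continuous_parametric_intervalIntegral_of_continuous
        (f := fun (z : ℝ × ℝ) s =>
          b (z.2 - s) * Φ (It κ b Φ p0 n s z.2 - It κ b Φ p0 n s (2 * s - z.2)))
      · apply Continuous.mul (h.bcont.comp (by fun_prop))
        apply h.cΦ.comp
        apply Continuous.sub
        · exact ih.comp (by fun_prop : Continuous fun w : (ℝ × ℝ) × ℝ => (w.2, w.1.2))
        · exact ih.comp (by fun_prop : Continuous fun w : (ℝ × ℝ) × ℝ => (w.2, 2 * w.2 - w.1.2))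
      · exact continuous_fst
    exact (h.cp0.comp continuous_snd).sub (continuous_const.mul h1)

theorem cIt' (h : Setup κ K B ℓ K1 b b1 Φ ω p0 p1) (n : ℕ) {X : Type*} [TopologicalSpace X]
    {a1 a2 : X → ℝ} (ha : Continuous a1) (hb : Continuous a2) :
    Continuous (fun x => It κ b Φ p0 n (a1 x) (a2 x)) :=
  (h.cIt n).comp (ha.prodMk hb)

/-- continuity of the integrand of the iterates of the derivative -/
theorem cInt (h : Setup κ K B ℓ K1 b b1 Φ ω p0 p1) (n : ℕ)
    (ih : Continuous (fun z : ℝ × ℝ => Dt κ ℓ b b1 Φ ω p0 p1 n z.1 z.2))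
    {X : Type*} [TopologicalSpace X] {a1 a2 : X → ℝ} (h1 : Continuous a1) (h2 : Continuous a2) :
    Continuous (fun x =>
      (b1 (a2 x - a1 x) * Φ (It κ b Φ p0 n (a1 x) (a1 x + fold ℓ (a2 x - a1 x)) -
          It κ b Φ p0 n (a1 x) (a1 x - fold ℓ (a2 x - a1 x))) +
        b (a2 x - a1 x) * (ω (It κ b Φ p0 n (a1 x) (a2 x) - It κ b Φ p0 n (a1 x) (2 * a1 x - a2 x)) *
        (Dt κ ℓ b b1 Φ ω p0 p1 n (a1 x) (a2 x) +
          Dt κ ℓ b b1 Φ ω p0 p1 n (a1 x) (2 * a1 x - a2 x))))) := by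
  have h21 : Continuous (fun x => a2 x - a1 x) := h2.sub h1
  have hf : Continuous (fun x => fold ℓ (a2 x - a1 x)) := (fold_continuous ℓ).comp h21
  have hr : Continuous (fun x => 2 * a1 x - a2 x) := (continuous_const.mul h1).sub h2
  apply Continuous.add
  · apply Continuous.mul (h.b1cont.comp h21)
    apply h.cΦ.comp
    exact (h.cIt' n h1 (h1.add hf)).sub (h.cIt' n h1 (h1.sub hf))
  · apply Continuous.mul (h.bcont.comp h21)
    apply Continuous.mul
    · apply h.hω.continuous.comp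
      exact (h.cIt' n h1 h2).sub (h.cIt' n h1 hr)
    · exact (ih.comp (h1.prodMk h2)).add (ih.comp (h1.prodMk hr))

theorem cDt (h : Setup κ K B ℓ K1 b b1 Φ ω p0 p1) (n : ℕ) :
    Continuous (fun z : ℝ × ℝ => Dt κ ℓ b b1 Φ ω p0 p1 n z.1 z.2) := by
  induction n with
  | zero => exact h.hp1.comp continuous_snd
  | succ n ih =>
    have h1 := intervalIntegral.continuous_parametric_intervalIntegral_of_continuous (μ := volume)
      (f := fun (z : ℝ × ℝ) s =>
      (b1 (z.2 - s) * Φ (It κ b Φ p0 n s (s + fold ℓ (z.2 - s)) -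
          It κ b Φ p0 n s (s - fold ℓ (z.2 - s))) +
        b (z.2 - s) * (ω (It κ b Φ p0 n s z.2 - It κ b Φ p0 n s (2 * s - z.2)) *
        (Dt κ ℓ b b1 Φ ω p0 p1 n s z.2 + Dt κ ℓ b b1 Φ ω p0 p1 n s (2 * s - z.2)))))
      (s := fun z => z.1) (a₀ := 0)
      (h.cInt n ih (a1 := fun w : (ℝ × ℝ) × ℝ => w.2) (a2 := fun w => w.1.2)
        (by fun_prop) (by fun_prop)) continuous_fst
    exact (h.hp1.comp continuous_snd).sub (continuous_const.mul h1)

theorem cDt' (h : Setup κ K B ℓ K1 b b1 Φ ω p0 p1) (n : ℕ) {X : Type*} [TopologicalSpace X]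
    {a1 a2 : X → ℝ} (ha : Continuous a1) (hb : Continuous a2) :
    Continuous (fun x => Dt κ ℓ b b1 Φ ω p0 p1 n (a1 x) (a2 x)) :=
  (h.cDt n).comp (ha.prodMk hb)

theorem It_per (h : Setup κ K B ℓ K1 b b1 Φ ω p0 p1) (n : ℕ) : ∀ t y,
    It κ b Φ p0 n t (y + 2 * ℓ) = It κ b Φ p0 n t y := by
  induction n with
  | zero => intro t y; exact h.hpper y
  | succ n ih =>
    intro t y
    have e1 : ∀ s, It κ b Φ p0 n s (2 * s - (y + 2 * ℓ)) = It κ b Φ p0 n s (2 * s - y) := by
      intro s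
      have := ih s (2 * s - (y + 2 * ℓ))
      rw [← this]
      congr 1; ring
    have e2 : ∀ s, b (y + 2 * ℓ - s) = b (y - s) := by
      intro s
      rw [← h.bper (y - s)]
      congr 1; ring
    show p0 (y + 2 * ℓ) - κ * ∫ s in (0 : ℝ)..t,
      b (y + 2 * ℓ - s) * Φ (It κ b Φ p0 n s (y + 2 * ℓ) - It κ b Φ p0 n s (2 * s - (y + 2 * ℓ))) =
      p0 y - κ * ∫ s in (0 : ℝ)..t,
      b (y - s) * Φ (It κ b Φ p0 n s y - It κ b Φ p0 n s (2 * s - y))
    simp_rw [e1, e2, ih]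
    rw [h.hpper]

theorem hasDerivAt_It (h : Setup κ K B ℓ K1 b b1 Φ ω p0 p1) (n : ℕ) :
    ∀ t y, HasDerivAt (fun y => It κ b Φ p0 n t y) (Dt κ ℓ b b1 Φ ω p0 p1 n t y) y := by
  induction n with
  | zero => intro t y; exact h.hp y
  | succ n ih =>
    intro t y
    have h1 : HasDerivAt (fun y => ∫ s in (0 : ℝ)..t,
        b (y - s) * Φ (It κ b Φ p0 n s y - It κ b Φ p0 n s (2 * s - y)))
        (∫ s in (0 : ℝ)..t,
      (b1 (y - s) * Φ (It κ b Φ p0 n s (s + fold ℓ (y - s)) -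
          It κ b Φ p0 n s (s - fold ℓ (y - s))) +
        b (y - s) * (ω (It κ b Φ p0 n s y - It κ b Φ p0 n s (2 * s - y)) *
        (Dt κ ℓ b b1 Φ ω p0 p1 n s y + Dt κ ℓ b b1 Φ ω p0 p1 n s (2 * s - y))))) y := by
      apply hasDerivAt_param_integral
        (F := fun y s => b (y - s) * Φ (It κ b Φ p0 n s y - It κ b Φ p0 n s (2 * s - y)))
        (F' := fun y s =>
      (b1 (y - s) * Φ (It κ b Φ p0 n s (s + fold ℓ (y - s)) -
          It κ b Φ p0 n s (s - fold ℓ (y - s))) +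
        b (y - s) * (ω (It κ b Φ p0 n s y - It κ b Φ p0 n s (2 * s - y)) *
        (Dt κ ℓ b b1 Φ ω p0 p1 n s y + Dt κ ℓ b b1 Φ ω p0 p1 n s (2 * s - y)))))
      · exact h.cInt n (h.cDt n) (a1 := fun z : ℝ × ℝ => z.2) (a2 := fun z => z.1)
          continuous_snd continuous_fst
      · intro y
        apply Continuous.mul (h.bcont.comp (by fun_prop))
        apply h.cΦ.comp
        apply Continuous.sub
        · exact h.cIt' n (by fun_prop) (by fun_prop)
        · exact h.cIt' n (by fun_prop) (by fun_prop)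
      · intro y s
        have hQd : HasDerivAt (fun x => It κ b Φ p0 n s (s + x) - It κ b Φ p0 n s (s - x))
            (Dt κ ℓ b b1 Φ ω p0 p1 n s y + Dt κ ℓ b b1 Φ ω p0 p1 n s (2 * s - y)) (y - s) := by
          have a1 : HasDerivAt (fun x : ℝ => s + x) 1 (y - s) := by
            simpa using (hasDerivAt_id (y - s)).const_add s
          have a2 : HasDerivAt (fun x : ℝ => s - x) (-1) (y - s) := by
            simpa using (hasDerivAt_id (y - s)).const_sub s
          have b1' := (ih s (s + (y - s))).comp (y - s) a1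
          have b2' := (ih s (s - (y - s))).comp (y - s) a2
          have b3' := b1'.sub b2'
          have e1 : Dt κ ℓ b b1 Φ ω p0 p1 n s (s + (y - s)) * 1 -
              Dt κ ℓ b b1 Φ ω p0 p1 n s (s - (y - s)) * (-1) =
              Dt κ ℓ b b1 Φ ω p0 p1 n s y + Dt κ ℓ b b1 Φ ω p0 p1 n s (2 * s - y) := by
            rw [show s + (y - s) = y by ring, show s - (y - s) = 2 * s - y by ring]
            ring
          rw [e1] at b3'
          exact b3'
        have key := hasDerivAt_weight h.lpos (b := b) (b1 := b1) (Φ := Φ) (ω := ω)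
          (Q := fun x => It κ b Φ p0 n s (s + x) - It κ b Φ p0 n s (s - x))
          h.bcont h.hb h.hΦ h.hΦodd
          (by
            intro x
            show It κ b Φ p0 n s (s + -x) - It κ b Φ p0 n s (s - -x) =
              -(It κ b Φ p0 n s (s + x) - It κ b Φ p0 n s (s - x))
            rw [sub_neg_eq_add, ← sub_eq_add_neg]
            ring)
          (by
            intro x
            show It κ b Φ p0 n s (s + (x + 2 * ℓ)) - It κ b Φ p0 n s (s - (x + 2 * ℓ)) =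
              It κ b Φ p0 n s (s + x) - It κ b Φ p0 n s (s - x)
            have e1 : It κ b Φ p0 n s (s + (x + 2 * ℓ)) = It κ b Φ p0 n s (s + x) := by
              rw [← add_assoc]
              exact h.It_per n s (s + x)
            have e2 : It κ b Φ p0 n s (s - (x + 2 * ℓ)) = It κ b Φ p0 n s (s - x) := by
              have := h.It_per n s (s - (x + 2 * ℓ))
              rw [← this]
              congr 1; ring
            rw [e1, e2])
          hQd
        have k1 : HasDerivAt (fun y : ℝ => y - s) 1 y := by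
          simpa using (hasDerivAt_id y).sub_const s
        have k2 := HasDerivAt.comp y key k1
        simp only [mul_one] at k2
        have e3 : ((fun x => b x * Φ (It κ b Φ p0 n s (s + x) - It κ b Φ p0 n s (s - x))) ∘
            fun y => y - s) = fun y => b (y - s) * Φ (It κ b Φ p0 n s y -
              It κ b Φ p0 n s (2 * s - y)) := by
          funext y
          simp only [Function.comp]
          rw [show s + (y - s) = y by ring, show s - (y - s) = 2 * s - y by ring]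
        rw [e3] at k2
        rw [show s + (y - s) = y by ring, show s - (y - s) = 2 * s - y by ring] at k2
        exact k2
    exact (h.hp y).sub (h1.const_mul κ)

theorem It_bound (h : Setup κ K B ℓ K1 b b1 Φ ω p0 p1) (n : ℕ) : ∀ t y,
    |It κ b Φ p0 n t y| ≤ 2 * B * Real.exp (4 * κ * K * |t|) := by
  have hκ := h.kpos
  have hK := h.Kpos
  have hB := h.Bnn
  have hl : 0 < 4 * κ * K := by positivity
  induction n with
  | zero =>
    intro t y
    have b6 : 1 ≤ Real.exp (4 * κ * K * |t|) := Real.one_le_exp (by positivity)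
    have hp0y := h.hp0B y
    have e1 : It κ b Φ p0 0 t y = p0 y := rfl
    rw [e1]
    nlinarith
  | succ n ih =>
    intro t y
    have e1 : It κ b Φ p0 (n + 1) t y = p0 y - κ * ∫ s in (0 : ℝ)..t,
      b (y - s) * Φ (It κ b Φ p0 n s y - It κ b Φ p0 n s (2 * s - y)) := rfl
    have e2 : |∫ s in (0 : ℝ)..t, b (y - s) * Φ (It κ b Φ p0 n s y - It κ b Φ p0 n s (2 * s - y))| ≤
        (4 * K * B) / (4 * κ * K) * Real.exp (4 * κ * K * |t|) := by
      apply abs_integral_le_exp (by positivity) hl le_rfl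
      intro s _
      apply h.bmul
      have b2 := ih s y
      have b3 := ih s (2 * s - y)
      have b4 : |It κ b Φ p0 n s y - It κ b Φ p0 n s (2 * s - y)| ≤
          4 * B * Real.exp (4 * κ * K * |s|) := (abs_sub _ _).trans (by linarith)
      calc _ ≤ K * |It κ b Φ p0 n s y - It κ b Φ p0 n s (2 * s - y)| := h.Φ_abs _
        _ ≤ K * (4 * B * Real.exp (4 * κ * K * |s|)) := mul_le_mul_of_nonneg_left b4 hK.le
        _ = _ := by ring
    have e3 := mul_le_mul_of_nonneg_left e2 hκ.le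
    have e4 : κ * (4 * K * B / (4 * κ * K) * Real.exp (4 * κ * K * |t|)) =
        B * Real.exp (4 * κ * K * |t|) := by field_simp
    rw [e4] at e3
    have b6 : 1 ≤ Real.exp (4 * κ * K * |t|) := Real.one_le_exp (by positivity)
    have hp0y := h.hp0B y
    rw [e1]
    refine (abs_sub _ _).trans ?_
    rw [abs_mul, abs_of_pos hκ]
    nlinarith

theorem diff_It (h : Setup κ K B ℓ K1 b b1 Φ ω p0 p1) (n : ℕ) : ∀ t y,
    |It κ b Φ p0 (n + 1) t y - It κ b Φ p0 n t y| ≤
      B / 2 ^ n * Real.exp (4 * κ * K * |t|) := by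
  have hκ := h.kpos
  have hK := h.Kpos
  have hB := h.Bnn
  have hl : 0 < 4 * κ * K := by positivity
  induction n with
  | zero =>
    intro t y
    have e1 : It κ b Φ p0 (0 + 1) t y - It κ b Φ p0 0 t y =
        -(κ * ∫ s in (0 : ℝ)..t, b (y - s) * Φ (p0 y - p0 (2 * s - y))) := by
      simp only [It]; ring
    rw [e1, abs_neg, abs_mul, abs_of_pos hκ]
    have e2 : |∫ s in (0 : ℝ)..t, b (y - s) * Φ (p0 y - p0 (2 * s - y))| ≤
        (2 * K * B) / (4 * κ * K) * Real.exp (4 * κ * K * |t|) := by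
      apply abs_integral_le_exp (by positivity) hl le_rfl
      intro s _
      apply h.bmul
      have b2 := abs_le.mp (h.hp0B y)
      have b3 := abs_le.mp (h.hp0B (2 * s - y))
      have b4 : |p0 y - p0 (2 * s - y)| ≤ 2 * B := by
        rw [abs_le]; constructor <;> linarith
      have b5 := h.Φ_abs (p0 y - p0 (2 * s - y))
      have b8 := mul_le_mul_of_nonneg_left b4 hK.le
      have b6 : 1 ≤ Real.exp (4 * κ * K * |s|) := Real.one_le_exp (by positivity)
      have b7 : 0 ≤ 2 * K * B := by positivity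
      nlinarith
    have e3 := mul_le_mul_of_nonneg_left e2 hκ.le
    rw [pow_zero, div_one]
    have e4 : κ * (2 * K * B / (4 * κ * K) * Real.exp (4 * κ * K * |t|)) =
        B / 2 * Real.exp (4 * κ * K * |t|) := by field_simp; ring
    rw [e4] at e3
    have b6 : 0 < Real.exp (4 * κ * K * |t|) := Real.exp_pos _
    nlinarith
  | succ n ih =>
    intro t y
    have c1 : Continuous (fun s => b (y - s) *
        Φ (It κ b Φ p0 (n + 1) s y - It κ b Φ p0 (n + 1) s (2 * s - y))) := by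
      apply Continuous.mul (h.bcont.comp (by fun_prop))
      apply h.cΦ.comp
      exact (h.cIt' (n + 1) (by fun_prop) (by fun_prop)).sub
        (h.cIt' (n + 1) (by fun_prop) (by fun_prop))
    have c2 : Continuous (fun s => b (y - s) *
        Φ (It κ b Φ p0 n s y - It κ b Φ p0 n s (2 * s - y))) := by
      apply Continuous.mul (h.bcont.comp (by fun_prop))
      apply h.cΦ.comp
      exact (h.cIt' n (by fun_prop) (by fun_prop)).sub
        (h.cIt' n (by fun_prop) (by fun_prop))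
    have e1 : It κ b Φ p0 (n + 1 + 1) t y - It κ b Φ p0 (n + 1) t y =
        -(κ * ∫ s in (0 : ℝ)..t, (b (y - s) *
          Φ (It κ b Φ p0 (n + 1) s y - It κ b Φ p0 (n + 1) s (2 * s - y)) -
          b (y - s) * Φ (It κ b Φ p0 n s y - It κ b Φ p0 n s (2 * s - y)))) := by
      rw [intervalIntegral.integral_sub (c1.intervalIntegrable _ _) (c2.intervalIntegrable _ _)]
      rw [show It κ b Φ p0 (n + 1 + 1) t y = p0 y - κ * ∫ s in (0 : ℝ)..t, b (y - s) *
        Φ (It κ b Φ p0 (n + 1) s y - It κ b Φ p0 (n + 1) s (2 * s - y)) from rfl,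
        show It κ b Φ p0 (n + 1) t y = p0 y - κ * ∫ s in (0 : ℝ)..t, b (y - s) *
        Φ (It κ b Φ p0 n s y - It κ b Φ p0 n s (2 * s - y)) from rfl]
      ring
    rw [e1, abs_neg, abs_mul, abs_of_pos hκ]
    have e2 : |∫ s in (0 : ℝ)..t, (b (y - s) *
          Φ (It κ b Φ p0 (n + 1) s y - It κ b Φ p0 (n + 1) s (2 * s - y)) -
          b (y - s) * Φ (It κ b Φ p0 n s y - It κ b Φ p0 n s (2 * s - y)))| ≤
        (2 * K * (B / 2 ^ n)) / (4 * κ * K) * Real.exp (4 * κ * K * |t|) := by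
      apply abs_integral_le_exp (by positivity) hl le_rfl
      intro s _
      rw [← mul_sub]
      apply h.bmul
      have b1 := h.lip (It κ b Φ p0 n s y - It κ b Φ p0 n s (2 * s - y))
        (It κ b Φ p0 (n + 1) s y - It κ b Φ p0 (n + 1) s (2 * s - y))
      have b2 := ih s y
      have b3 := ih s (2 * s - y)
      have b4 : |It κ b Φ p0 (n + 1) s y - It κ b Φ p0 (n + 1) s (2 * s - y) -
          (It κ b Φ p0 n s y - It κ b Φ p0 n s (2 * s - y))| ≤
          2 * (B / 2 ^ n * Real.exp (4 * κ * K * |s|)) := by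
        have d1 : It κ b Φ p0 (n + 1) s y - It κ b Φ p0 (n + 1) s (2 * s - y) -
          (It κ b Φ p0 n s y - It κ b Φ p0 n s (2 * s - y)) =
          (It κ b Φ p0 (n + 1) s y - It κ b Φ p0 n s y) -
          (It κ b Φ p0 (n + 1) s (2 * s - y) - It κ b Φ p0 n s (2 * s - y)) := by ring
        rw [d1]
        refine (abs_sub _ _).trans ?_
        linarith
      have b5 := mul_le_mul_of_nonneg_left b4 hK.le
      refine (b1.trans b5).trans (le_of_eq ?_)
      ring
    have e3 := mul_le_mul_of_nonneg_left e2 hκ.le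
    refine e3.trans (le_of_eq ?_)
    rw [pow_succ]
    field_simp
    ring

/-- The limit of the iterates. -/
theorem exists_lim (h : Setup κ K B ℓ K1 b b1 Φ ω p0 p1) : ∃ (C : ℝ) (P : ℝ → ℝ → ℝ), 0 ≤ C ∧
    ∀ n t y, |It κ b Φ p0 n t y - P t y| ≤ C / 2 ^ n * Real.exp (4 * κ * K * |t|) := by
  have hκ := h.kpos
  have hK := h.Kpos
  have hB := h.Bnn
  have hd : ∀ t y n, dist (It κ b Φ p0 n t y) (It κ b Φ p0 (n + 1) t y) ≤
      (2 * B * Real.exp (4 * κ * K * |t|)) / 2 / 2 ^ n := by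
    intro t y n
    rw [dist_comm, Real.dist_eq]
    refine (h.diff_It n t y).trans (le_of_eq ?_)
    ring
  have hlim : ∀ t y, ∃ a, Tendsto (fun n => It κ b Φ p0 n t y) atTop (𝓝 a) := fun t y =>
    cauchySeq_tendsto_of_complete (cauchySeq_of_le_geometric_two (hd t y))
  choose P hP using hlim
  refine ⟨2 * B, P, by positivity, ?_⟩
  intro n t y
  have := dist_le_of_le_geometric_two_of_tendsto (hd t y) (hP t y) n
  rw [Real.dist_eq] at this
  refine this.trans (le_of_eq ?_)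
  ring

theorem Dt_bound (h : Setup κ K B ℓ K1 b b1 Φ ω p0 p1) (n : ℕ) : ∀ t y,
    |Dt κ ℓ b b1 Φ ω p0 p1 n t y| ≤ 2 * (B * (1 + K1)) * Real.exp (4 * κ * K * |t|) := by
  have hκ := h.kpos
  have hK := h.Kpos
  have hB := h.Bnn
  have hK1 := h.K1nn
  have hl : 0 < 4 * κ * K := by positivity
  induction n with
  | zero =>
    intro t y
    have b6 : 1 ≤ Real.exp (4 * κ * K * |t|) := Real.one_le_exp (by positivity)
    have hp1y := h.hp1B y
    have e1 : Dt κ ℓ b b1 Φ ω p0 p1 0 t y = p1 y := rfl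
    rw [e1]
    have b7 : 0 ≤ B * K1 := by positivity
    nlinarith
  | succ n ih =>
    intro t y
    have e1 : Dt κ ℓ b b1 Φ ω p0 p1 (n + 1) t y = p1 y - κ * ∫ s in (0 : ℝ)..t,
      (b1 (y - s) * Φ (It κ b Φ p0 n s (s + fold ℓ (y - s)) -
          It κ b Φ p0 n s (s - fold ℓ (y - s))) +
        b (y - s) * (ω (It κ b Φ p0 n s y - It κ b Φ p0 n s (2 * s - y)) *
        (Dt κ ℓ b b1 Φ ω p0 p1 n s y + Dt κ ℓ b b1 Φ ω p0 p1 n s (2 * s - y)))) := rfl
    have e2 : |∫ s in (0 : ℝ)..t,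
      (b1 (y - s) * Φ (It κ b Φ p0 n s (s + fold ℓ (y - s)) -
          It κ b Φ p0 n s (s - fold ℓ (y - s))) +
        b (y - s) * (ω (It κ b Φ p0 n s y - It κ b Φ p0 n s (2 * s - y)) *
        (Dt κ ℓ b b1 Φ ω p0 p1 n s y + Dt κ ℓ b b1 Φ ω p0 p1 n s (2 * s - y))))| ≤
        (K1 * (K * (4 * B)) + K * (4 * (B * (1 + K1)))) / (4 * κ * K) *
          Real.exp (4 * κ * K * |t|) := by
      apply abs_integral_le_exp (by positivity) hl le_rfl
      intro s _
      set ex := Real.exp (4 * κ * K * |s|) with hex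
      have hex0 : 0 < ex := Real.exp_pos _
      have t1 : |b1 (y - s) * Φ (It κ b Φ p0 n s (s + fold ℓ (y - s)) -
          It κ b Φ p0 n s (s - fold ℓ (y - s)))| ≤ K1 * (K * (4 * B)) * ex := by
        rw [abs_mul]
        have c1 := h.It_bound n s (s + fold ℓ (y - s))
        have c2 := h.It_bound n s (s - fold ℓ (y - s))
        have c3 : |It κ b Φ p0 n s (s + fold ℓ (y - s)) -
          It κ b Φ p0 n s (s - fold ℓ (y - s))| ≤ 4 * B * ex := (abs_sub _ _).trans (by linarith)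
        have c4 := (h.Φ_abs _).trans (mul_le_mul_of_nonneg_left c3 hK.le)
        calc _ ≤ K1 * (K * (4 * B * ex)) := mul_le_mul (h.b1K _) c4 (abs_nonneg _) hK1
          _ = _ := by ring
      have t2 : |b (y - s) * (ω (It κ b Φ p0 n s y - It κ b Φ p0 n s (2 * s - y)) *
        (Dt κ ℓ b b1 Φ ω p0 p1 n s y + Dt κ ℓ b b1 Φ ω p0 p1 n s (2 * s - y)))| ≤
          K * (4 * (B * (1 + K1))) * ex := by
        apply h.bmul
        rw [abs_mul]
        have b2 := ih s y
        have b3 := ih s (2 * s - y)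
        have b4 : |Dt κ ℓ b b1 Φ ω p0 p1 n s y + Dt κ ℓ b b1 Φ ω p0 p1 n s (2 * s - y)| ≤
            4 * (B * (1 + K1)) * ex := (abs_add_le _ _).trans (by linarith)
        calc _ ≤ K * (4 * (B * (1 + K1)) * ex) :=
              mul_le_mul (h.hωK _) b4 (abs_nonneg _) hK.le
          _ = _ := by ring
      refine (abs_add_le _ _).trans ?_
      linarith
    have e3 := mul_le_mul_of_nonneg_left e2 hκ.le
    have e4 : κ * ((K1 * (K * (4 * B)) + K * (4 * (B * (1 + K1)))) / (4 * κ * K) *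
          Real.exp (4 * κ * K * |t|)) =
        (B * K1 + B * (1 + K1)) * Real.exp (4 * κ * K * |t|) := by field_simp
    rw [e4] at e3
    have b6 : 1 ≤ Real.exp (4 * κ * K * |t|) := Real.one_le_exp (by positivity)
    have hp1y := h.hp1B y
    rw [e1]
    refine (abs_sub _ _).trans ?_
    rw [abs_mul, abs_of_pos hκ]
    nlinarith

theorem P_cont (h : Setup κ K B ℓ K1 b b1 Φ ω p0 p1) {C : ℝ} {P : ℝ → ℝ → ℝ} (hC : 0 ≤ C)
    (hP : ∀ n t y, |It κ b Φ p0 n t y - P t y| ≤ C / 2 ^ n * Real.exp (4 * κ * K * |t|)) :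
    Continuous (fun z : ℝ × ℝ => P z.1 z.2) := by
  have hκ := h.kpos
  have hK := h.Kpos
  apply TendstoLocallyUniformly.continuous
    (F := fun n (z : ℝ × ℝ) => It κ b Φ p0 n z.1 z.2) (p := atTop)
  · apply tendstoLocallyUniformly_of_le
    intro T hT ε hε
    obtain ⟨N, hN⟩ := exists_nat_gt (C * Real.exp (4 * κ * K * T) / ε)
    refine ⟨N, fun n hn z hz => ?_⟩
    refine lt_of_le_of_lt (hP n z.1 z.2) ?_
    have h1 : Real.exp (4 * κ * K * |z.1|) ≤ Real.exp (4 * κ * K * T) := by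
      apply Real.exp_le_exp.mpr
      exact mul_le_mul_of_nonneg_left hz (by positivity)
    have h2 : (N : ℝ) < 2 ^ n := by
      have a1 : N < 2 ^ n := lt_of_le_of_lt hn Nat.lt_two_pow_self
      exact_mod_cast a1
    rw [div_lt_iff₀ hε] at hN
    have h3 : (0 : ℝ) < 2 ^ n := by positivity
    rw [div_mul_eq_mul_div, div_lt_iff₀ h3]
    have h4 := mul_le_mul_of_nonneg_left h1 hC
    nlinarith
  · exact Frequently.of_forall (fun n => h.cIt n)

theorem omega_close (h : Setup κ K B ℓ K1 b b1 Φ ω p0 p1) {T η : ℝ} (hη : 0 < η) :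
    ∃ N : ℕ, ∀ n m : ℕ, N ≤ n → N ≤ m → ∀ s, |s| ≤ T → ∀ y,
      |ω (It κ b Φ p0 n s y - It κ b Φ p0 n s (2 * s - y)) -
        ω (It κ b Φ p0 m s y - It κ b Φ p0 m s (2 * s - y))| ≤ η ∧
      |It κ b Φ p0 n s y - It κ b Φ p0 m s y| ≤ η := by
  have hκ := h.kpos
  have hK := h.Kpos
  obtain ⟨C, P, hC, hP⟩ := h.exists_lim
  obtain ⟨δ', hδ0, hδ'⟩ := Metric.uniformContinuous_iff.mp h.hω η hη
  set δ : ℝ := min δ' η with hδe
  have hδ : 0 < δ := lt_min hδ0 hη
  set E : ℝ := Real.exp (4 * κ * K * T) with hE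
  obtain ⟨N, hN⟩ := exists_nat_gt (4 * C * E / δ)
  refine ⟨N, fun n m hn hm s hs y => ?_⟩
  have hbd : ∀ n : ℕ, N ≤ n → ∀ y, |It κ b Φ p0 n s y - P s y| < δ / 4 := by
    intro n hn y
    refine lt_of_le_of_lt (hP n s y) ?_
    have h1 : Real.exp (4 * κ * K * |s|) ≤ E := by
      apply Real.exp_le_exp.mpr
      exact mul_le_mul_of_nonneg_left hs (by positivity)
    have h2 : (N : ℝ) < 2 ^ n := by
      have a1 : N < 2 ^ n := lt_of_le_of_lt hn Nat.lt_two_pow_self
      exact_mod_cast a1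
    rw [div_lt_iff₀ hδ] at hN
    have h3 : (0 : ℝ) < 2 ^ n := by positivity
    rw [div_mul_eq_mul_div, div_lt_iff₀ h3]
    have h4 := mul_le_mul_of_nonneg_left h1 hC
    nlinarith
  constructor
  · apply le_of_lt
    have key := hδ' (a := It κ b Φ p0 n s y - It κ b Φ p0 n s (2 * s - y))
      (b := It κ b Φ p0 m s y - It κ b Φ p0 m s (2 * s - y)) (by
        refine lt_of_lt_of_le ?_ (min_le_left δ' η)
        rw [← hδe, Real.dist_eq]
        have b1 := abs_lt.mp (hbd n hn y)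
        have b2 := abs_lt.mp (hbd n hn (2 * s - y))
        have b3 := abs_lt.mp (hbd m hm y)
        have b4 := abs_lt.mp (hbd m hm (2 * s - y))
        rw [abs_lt]
        constructor <;> linarith [b1.1, b1.2, b2.1, b2.2, b3.1, b3.2, b4.1, b4.2])
    rw [Real.dist_eq] at key
    exact key
  · have b1 := abs_lt.mp (hbd n hn y)
    have b3 := abs_lt.mp (hbd m hm y)
    have b5 : δ ≤ η := min_le_right δ' η
    rw [abs_le]
    constructor <;> linarith [b1.1, b1.2, b3.1, b3.2]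

theorem Dt_close (h : Setup κ K B ℓ K1 b b1 Φ ω p0 p1) {T η : ℝ} (hη : 0 < η) {N : ℕ}
    (hN : ∀ n m : ℕ, N ≤ n → N ≤ m → ∀ s, |s| ≤ T → ∀ y,
      |ω (It κ b Φ p0 n s y - It κ b Φ p0 n s (2 * s - y)) -
        ω (It κ b Φ p0 m s y - It κ b Φ p0 m s (2 * s - y))| ≤ η ∧
      |It κ b Φ p0 n s y - It κ b Φ p0 m s y| ≤ η) (k : ℕ) :
    ∀ n m : ℕ, N + k ≤ n → N + k ≤ m → ∀ t, |t| ≤ T → ∀ y,
      |Dt κ ℓ b b1 Φ ω p0 p1 n t y - Dt κ ℓ b b1 Φ ω p0 p1 m t y| ≤
        (4 * (B * (1 + K1)) / 2 ^ k + (K1 + 2 * (B * (1 + K1)) / K) * η) *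
          Real.exp (4 * κ * K * |t|) := by
  have hκ := h.kpos
  have hK := h.Kpos
  have hB := h.Bnn
  have hK1 := h.K1nn
  have hl : 0 < 4 * κ * K := by positivity
  set X0 : ℝ := B * (1 + K1) with hX0e
  have hX00 : 0 ≤ X0 := by positivity
  induction k with
  | zero =>
    intro n m _ _ t _ y
    have b1 := h.Dt_bound n t y
    have b2 := h.Dt_bound m t y
    rw [← hX0e] at b1 b2
    have b3 : 0 ≤ (K1 + 2 * X0 / K) * η * Real.exp (4 * κ * K * |t|) := by positivity
    refine (abs_sub _ _).trans ?_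
    rw [pow_zero, div_one]
    linarith
  | succ k ih =>
    intro n m hn hm t ht y
    obtain ⟨n', rfl⟩ : ∃ n', n = n' + 1 := ⟨n - 1, by omega⟩
    obtain ⟨m', rfl⟩ : ∃ m', m = m' + 1 := ⟨m - 1, by omega⟩
    have hn' : N + k ≤ n' := by omega
    have hm' : N + k ≤ m' := by omega
    have cI : ∀ n, Continuous (fun s =>
      (b1 (y - s) * Φ (It κ b Φ p0 n s (s + fold ℓ (y - s)) -
          It κ b Φ p0 n s (s - fold ℓ (y - s))) +
        b (y - s) * (ω (It κ b Φ p0 n s y - It κ b Φ p0 n s (2 * s - y)) *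
        (Dt κ ℓ b b1 Φ ω p0 p1 n s y + Dt κ ℓ b b1 Φ ω p0 p1 n s (2 * s - y))))) := fun n =>
      h.cInt n (h.cDt n) continuous_id continuous_const
    have e1 : Dt κ ℓ b b1 Φ ω p0 p1 (n' + 1) t y - Dt κ ℓ b b1 Φ ω p0 p1 (m' + 1) t y =
        -(κ * ∫ s in (0 : ℝ)..t,
          ((b1 (y - s) * Φ (It κ b Φ p0 n' s (s + fold ℓ (y - s)) -
          It κ b Φ p0 n' s (s - fold ℓ (y - s))) +
        b (y - s) * (ω (It κ b Φ p0 n' s y - It κ b Φ p0 n' s (2 * s - y)) *
        (Dt κ ℓ b b1 Φ ω p0 p1 n' s y + Dt κ ℓ b b1 Φ ω p0 p1 n' s (2 * s - y)))) -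
          (b1 (y - s) * Φ (It κ b Φ p0 m' s (s + fold ℓ (y - s)) -
          It κ b Φ p0 m' s (s - fold ℓ (y - s))) +
        b (y - s) * (ω (It κ b Φ p0 m' s y - It κ b Φ p0 m' s (2 * s - y)) *
        (Dt κ ℓ b b1 Φ ω p0 p1 m' s y + Dt κ ℓ b b1 Φ ω p0 p1 m' s (2 * s - y)))))) := by
      rw [intervalIntegral.integral_sub ((cI n').intervalIntegrable _ _)
        ((cI m').intervalIntegrable _ _)]
      rw [show Dt κ ℓ b b1 Φ ω p0 p1 (n' + 1) t y = p1 y - κ * ∫ s in (0 : ℝ)..t,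
        (b1 (y - s) * Φ (It κ b Φ p0 n' s (s + fold ℓ (y - s)) -
          It κ b Φ p0 n' s (s - fold ℓ (y - s))) +
        b (y - s) * (ω (It κ b Φ p0 n' s y - It κ b Φ p0 n' s (2 * s - y)) *
        (Dt κ ℓ b b1 Φ ω p0 p1 n' s y + Dt κ ℓ b b1 Φ ω p0 p1 n' s (2 * s - y)))) from rfl,
        show Dt κ ℓ b b1 Φ ω p0 p1 (m' + 1) t y = p1 y - κ * ∫ s in (0 : ℝ)..t,
        (b1 (y - s) * Φ (It κ b Φ p0 m' s (s + fold ℓ (y - s)) -
          It κ b Φ p0 m' s (s - fold ℓ (y - s))) +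
        b (y - s) * (ω (It κ b Φ p0 m' s y - It κ b Φ p0 m' s (2 * s - y)) *
        (Dt κ ℓ b b1 Φ ω p0 p1 m' s y + Dt κ ℓ b b1 Φ ω p0 p1 m' s (2 * s - y)))) from rfl]
      ring
    rw [e1, abs_neg, abs_mul, abs_of_pos hκ]
    set X : ℝ := 4 * X0 / 2 ^ k + (K1 + 2 * X0 / K) * η with hX
    have hX0 : 0 ≤ X := by positivity
    have e2 : |∫ s in (0 : ℝ)..t,
          ((b1 (y - s) * Φ (It κ b Φ p0 n' s (s + fold ℓ (y - s)) -
          It κ b Φ p0 n' s (s - fold ℓ (y - s))) +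
        b (y - s) * (ω (It κ b Φ p0 n' s y - It κ b Φ p0 n' s (2 * s - y)) *
        (Dt κ ℓ b b1 Φ ω p0 p1 n' s y + Dt κ ℓ b b1 Φ ω p0 p1 n' s (2 * s - y)))) -
          (b1 (y - s) * Φ (It κ b Φ p0 m' s (s + fold ℓ (y - s)) -
          It κ b Φ p0 m' s (s - fold ℓ (y - s))) +
        b (y - s) * (ω (It κ b Φ p0 m' s y - It κ b Φ p0 m' s (2 * s - y)) *
        (Dt κ ℓ b b1 Φ ω p0 p1 m' s y + Dt κ ℓ b b1 Φ ω p0 p1 m' s (2 * s - y)))))| ≤
        (K1 * (K * (2 * η)) + (4 * X0 * η + 2 * K * X)) / (4 * κ * K) *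
          Real.exp (4 * κ * K * |t|) := by
      apply abs_integral_le_exp (by positivity) hl ht
      intro s hs
      set w1 := ω (It κ b Φ p0 n' s y - It κ b Φ p0 n' s (2 * s - y)) with hw1
      set w2 := ω (It κ b Φ p0 m' s y - It κ b Φ p0 m' s (2 * s - y)) with hw2
      set d1 := Dt κ ℓ b b1 Φ ω p0 p1 n' s y with hd1
      set d2 := Dt κ ℓ b b1 Φ ω p0 p1 n' s (2 * s - y) with hd2
      set d3 := Dt κ ℓ b b1 Φ ω p0 p1 m' s y with hd3
      set d4 := Dt κ ℓ b b1 Φ ω p0 p1 m' s (2 * s - y) with hd4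
      set q1 := It κ b Φ p0 n' s (s + fold ℓ (y - s)) with hq1
      set q2 := It κ b Φ p0 n' s (s - fold ℓ (y - s)) with hq2
      set q3 := It κ b Φ p0 m' s (s + fold ℓ (y - s)) with hq3
      set q4 := It κ b Φ p0 m' s (s - fold ℓ (y - s)) with hq4
      set ex := Real.exp (4 * κ * K * |s|) with hex
      have hex1 : 1 ≤ ex := Real.one_le_exp (by positivity)
      have r1 : |q1 - q3| ≤ η := (hN n' m' (by omega) (by omega) s hs _).2
      have r2 : |q2 - q4| ≤ η := (hN n' m' (by omega) (by omega) s hs _).2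
      have r3 : |(q1 - q2) - (q3 - q4)| ≤ 2 * η := by
        rw [show (q1 - q2) - (q3 - q4) = (q1 - q3) - (q2 - q4) by ring]
        exact (abs_sub _ _).trans (by linarith)
      have r4 : |b1 (y - s) * (Φ (q1 - q2) - Φ (q3 - q4))| ≤ K1 * (K * (2 * η)) := by
        rw [abs_mul]
        apply mul_le_mul (h.b1K _) _ (abs_nonneg _) hK1
        exact (h.lip (q3 - q4) (q1 - q2)).trans (mul_le_mul_of_nonneg_left r3 hK.le)
      have b1' : |w1 - w2| ≤ η := (hN n' m' (by omega) (by omega) s hs y).1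
      have b2 : |w2| ≤ K := h.hωK _
      have b3 : |d1| ≤ 2 * X0 * ex := h.Dt_bound n' s y
      have b4 : |d2| ≤ 2 * X0 * ex := h.Dt_bound n' s (2 * s - y)
      have b5 : |d1 - d3| ≤ X * ex := ih n' m' hn' hm' s hs y
      have b6 : |d2 - d4| ≤ X * ex := ih n' m' hn' hm' s hs (2 * s - y)
      have e3 : b1 (y - s) * Φ (q1 - q2) + b (y - s) * (w1 * (d1 + d2)) -
          (b1 (y - s) * Φ (q3 - q4) + b (y - s) * (w2 * (d3 + d4))) =
          b1 (y - s) * (Φ (q1 - q2) - Φ (q3 - q4)) +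
          b (y - s) * ((w1 - w2) * (d1 + d2) + w2 * ((d1 - d3) + (d2 - d4))) := by ring
      rw [e3]
      have b7 : |d1 + d2| ≤ 4 * X0 * ex := (abs_add_le _ _).trans (by linarith)
      have b8 : |(d1 - d3) + (d2 - d4)| ≤ 2 * X * ex := (abs_add_le _ _).trans (by linarith)
      have b9 : |b (y - s) * ((w1 - w2) * (d1 + d2) + w2 * ((d1 - d3) + (d2 - d4)))| ≤
          (4 * X0 * η + 2 * K * X) * ex := by
        apply h.bmul
        calc _ ≤ |(w1 - w2) * (d1 + d2)| + |w2 * ((d1 - d3) + (d2 - d4))| := abs_add_le _ _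
          _ = |w1 - w2| * |d1 + d2| + |w2| * |(d1 - d3) + (d2 - d4)| := by rw [abs_mul, abs_mul]
          _ ≤ η * (4 * X0 * ex) + K * (2 * X * ex) :=
              add_le_add (mul_le_mul b1' b7 (abs_nonneg _) hη.le)
                (mul_le_mul b2 b8 (abs_nonneg _) hK.le)
          _ = _ := by ring
      refine (abs_add_le _ _).trans ?_
      have r5 : K1 * (K * (2 * η)) ≤ K1 * (K * (2 * η)) * ex := by
        have : 0 ≤ K1 * (K * (2 * η)) := by positivity
        nlinarith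
      linarith
    have e3 := mul_le_mul_of_nonneg_left e2 hκ.le
    refine e3.trans (le_of_eq ?_)
    rw [hX, pow_succ]
    field_simp
    ring

theorem Dt_cauchy (h : Setup κ K B ℓ K1 b b1 Φ ω p0 p1) {T ε : ℝ} (hε : 0 < ε) :
    ∃ N : ℕ, ∀ n m : ℕ, N ≤ n → N ≤ m → ∀ t, |t| ≤ T → ∀ y,
      |Dt κ ℓ b b1 Φ ω p0 p1 n t y - Dt κ ℓ b b1 Φ ω p0 p1 m t y| ≤ ε := by
  have hκ := h.kpos
  have hK := h.Kpos
  have hB := h.Bnn
  have hK1 := h.K1nn
  set X0 : ℝ := B * (1 + K1) with hX0e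
  have hX00 : 0 ≤ X0 := by positivity
  set E : ℝ := Real.exp (4 * κ * K * T) with hE
  have hE0 : 0 < E := Real.exp_pos _
  set Y : ℝ := K1 + 2 * X0 / K with hY
  have hY0 : 0 ≤ Y := by positivity
  set η : ℝ := ε / (2 * (Y + 1) * E) with hη
  have hη0 : 0 < η := by positivity
  obtain ⟨N, hN⟩ := h.omega_close (T := T) hη0
  obtain ⟨k, hk⟩ := exists_nat_gt (8 * X0 * E / ε)
  refine ⟨N + k, fun n m hn hm t ht y => ?_⟩
  refine (h.Dt_close hη0 hN k n m hn hm t ht y).trans ?_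
  rw [← hX0e, ← hY]
  have h1 : Real.exp (4 * κ * K * |t|) ≤ E := by
    apply Real.exp_le_exp.mpr
    exact mul_le_mul_of_nonneg_left ht (by positivity)
  have h2 : (4 * X0 / 2 ^ k + Y * η) * Real.exp (4 * κ * K * |t|) ≤
      (4 * X0 / 2 ^ k + Y * η) * E := mul_le_mul_of_nonneg_left h1 (by positivity)
  refine h2.trans ?_
  have h3 : 4 * X0 / 2 ^ k * E ≤ ε / 2 := by
    rw [div_lt_iff₀ hε] at hk
    have a1 : (k : ℝ) < 2 ^ k := by exact_mod_cast Nat.lt_two_pow_self (n := k)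
    have a2 : (0 : ℝ) < 2 ^ k := by positivity
    rw [div_mul_eq_mul_div, div_le_iff₀ a2]
    nlinarith
  have h4 : Y * η * E ≤ ε / 2 := by
    rw [hη]
    have a1 : Y * (ε / (2 * (Y + 1) * E)) * E = ε / 2 * (Y / (Y + 1)) := by
      field_simp
    rw [a1]
    have a2 : Y / (Y + 1) ≤ 1 := by
      rw [div_le_one (by linarith)]; linarith
    have a3 := mul_le_mul_of_nonneg_left a2 (by positivity : 0 ≤ ε / 2)
    linarith
  linarith

theorem exists_D (h : Setup κ K B ℓ K1 b b1 Φ ω p0 p1) : ∃ D : ℝ → ℝ → ℝ,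
    ∀ T : ℝ, 0 ≤ T → ∀ ε : ℝ, 0 < ε → ∃ N : ℕ, ∀ n, N ≤ n → ∀ z : ℝ × ℝ, |z.1| ≤ T →
      |Dt κ ℓ b b1 Φ ω p0 p1 n z.1 z.2 - D z.1 z.2| < ε := by
  have hlim : ∀ t y, ∃ a, Tendsto (fun n => Dt κ ℓ b b1 Φ ω p0 p1 n t y) atTop (𝓝 a) := by
    intro t y
    apply cauchySeq_tendsto_of_complete
    rw [Metric.cauchySeq_iff]
    intro ε hε
    obtain ⟨N, hN⟩ := h.Dt_cauchy (T := |t|) (half_pos hε)
    refine ⟨N, fun n hn m hm => ?_⟩
    rw [Real.dist_eq]
    have := hN n m hn hm t le_rfl y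
    linarith
  choose D hD using hlim
  refine ⟨D, ?_⟩
  intro T _ ε hε
  obtain ⟨N, hN⟩ := h.Dt_cauchy (T := T) (half_pos hε)
  refine ⟨N, fun n hn z hz => ?_⟩
  have h1 : |Dt κ ℓ b b1 Φ ω p0 p1 n z.1 z.2 - D z.1 z.2| ≤ ε / 2 := by
    have h2 : Tendsto (fun m => |Dt κ ℓ b b1 Φ ω p0 p1 n z.1 z.2 -
        Dt κ ℓ b b1 Φ ω p0 p1 m z.1 z.2|) atTop
        (𝓝 |Dt κ ℓ b b1 Φ ω p0 p1 n z.1 z.2 - D z.1 z.2|) :=
      (tendsto_const_nhds.sub (hD z.1 z.2)).abs
    apply le_of_tendsto h2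
    filter_upwards [eventually_ge_atTop N] with m hm
    exact hN n m hn hm z.1 hz z.2
  linarith

/-- The `C¹` solution of the truncated equation. -/
theorem exists_sol (h : Setup κ K B ℓ K1 b b1 Φ ω p0 p1) : ∃ P D : ℝ → ℝ → ℝ,
    Continuous (fun z : ℝ × ℝ => P z.1 z.2) ∧ Continuous (fun z : ℝ × ℝ => D z.1 z.2) ∧
    (∀ t y, HasDerivAt (fun y => P t y) (D t y) y) ∧
    (∀ t y, P t (y + 2 * ℓ) = P t y) ∧
    (∀ t y, P t y = p0 y - κ * ∫ s in (0 : ℝ)..t, b (y - s) * Φ (P s y - P s (2 * s - y))) := by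
  have hκ := h.kpos
  have hK := h.Kpos
  have hl : 0 < 4 * κ * K := by positivity
  obtain ⟨C, P, hC, hP⟩ := h.exists_lim
  obtain ⟨D, hD⟩ := h.exists_D
  have cP := h.P_cont hC hP
  have hzero : Tendsto (fun n : ℕ => (1 : ℝ) / 2 ^ n) atTop (𝓝 0) := by
    have := tendsto_pow_atTop_nhds_zero_of_lt_one (r := (1 / 2 : ℝ)) (by norm_num) (by norm_num)
    simpa [one_div, inv_pow] using this
  have hPt : ∀ t y, Tendsto (fun n => It κ b Φ p0 n t y) atTop (𝓝 (P t y)) := by
    intro t y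
    rw [tendsto_iff_dist_tendsto_zero]
    have h0 : ∀ n, dist (It κ b Φ p0 n t y) (P t y) ≤
        C / 2 ^ n * Real.exp (4 * κ * K * |t|) := fun n => by
      rw [Real.dist_eq]; exact hP n t y
    refine squeeze_zero (fun _ => dist_nonneg) h0 ?_
    have h1 := hzero.const_mul (C * Real.exp (4 * κ * K * |t|))
    rw [mul_zero] at h1
    refine h1.congr (fun n => ?_)
    ring
  refine ⟨P, D, cP, ?_, ?_, ?_, ?_⟩
  · apply TendstoLocallyUniformly.continuous
      (F := fun n (z : ℝ × ℝ) => Dt κ ℓ b b1 Φ ω p0 p1 n z.1 z.2) (p := atTop)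
    · exact tendstoLocallyUniformly_of_le hD
    · exact Frequently.of_forall (fun n => h.cDt n)
  · intro t y
    apply hasDerivAt_of_tendstoUniformly (l := atTop)
      (f := fun n y => It κ b Φ p0 n t y) (f' := fun n y => Dt κ ℓ b b1 Φ ω p0 p1 n t y)
      (g := fun y => P t y) (g' := fun y => D t y)
    · rw [Metric.tendstoUniformly_iff]
      intro ε hε
      obtain ⟨N, hN⟩ := hD |t| (abs_nonneg t) ε hε
      filter_upwards [eventually_ge_atTop N] with n hn x
      rw [dist_comm, Real.dist_eq]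
      exact hN n hn (t, x) le_rfl
    · exact Eventually.of_forall (fun n x => h.hasDerivAt_It n t x)
    · intro x
      exact hPt t x
  · intro t y
    have h1 := hPt t (y + 2 * ℓ)
    simp_rw [h.It_per] at h1
    exact tendsto_nhds_unique h1 (hPt t y)
  · intro t y
    have h1 : Tendsto (fun n => It κ b Φ p0 (n + 1) t y) atTop (𝓝 (P t y)) :=
      (hPt t y).comp (tendsto_add_atTop_nat 1)
    have c1 : Continuous (fun s => b (y - s) * Φ (P s y - P s (2 * s - y))) := by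
      apply Continuous.mul (h.bcont.comp (by fun_prop))
      apply h.cΦ.comp
      apply Continuous.sub
      · exact cP.comp (by fun_prop : Continuous fun s : ℝ => (s, y))
      · exact cP.comp (by fun_prop : Continuous fun s : ℝ => (s, 2 * s - y))
    have c2 : ∀ n, Continuous (fun s => b (y - s) *
        Φ (It κ b Φ p0 n s y - It κ b Φ p0 n s (2 * s - y))) := by
      intro n
      apply Continuous.mul (h.bcont.comp (by fun_prop))
      apply h.cΦ.comp
      exact (h.cIt' n (by fun_prop) (by fun_prop)).sub (h.cIt' n (by fun_prop) (by fun_prop))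
    have h2 : Tendsto (fun n => ∫ s in (0 : ℝ)..t, b (y - s) *
        Φ (It κ b Φ p0 n s y - It κ b Φ p0 n s (2 * s - y))) atTop
        (𝓝 (∫ s in (0 : ℝ)..t, b (y - s) * Φ (P s y - P s (2 * s - y)))) := by
      rw [tendsto_iff_dist_tendsto_zero]
      have h3 : ∀ n : ℕ, dist (∫ s in (0 : ℝ)..t, b (y - s) *
          Φ (It κ b Φ p0 n s y - It κ b Φ p0 n s (2 * s - y)))
          (∫ s in (0 : ℝ)..t, b (y - s) * Φ (P s y - P s (2 * s - y))) ≤
          (2 * K * (C / 2 ^ n)) / (4 * κ * K) * Real.exp (4 * κ * K * |t|) := by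
        intro n
        rw [Real.dist_eq, ← intervalIntegral.integral_sub ((c2 n).intervalIntegrable _ _)
          (c1.intervalIntegrable _ _)]
        apply abs_integral_le_exp (by positivity) hl le_rfl
        intro s _
        rw [← mul_sub]
        apply h.bmul
        have b1 := h.lip (P s y - P s (2 * s - y))
          (It κ b Φ p0 n s y - It κ b Φ p0 n s (2 * s - y))
        have b2 := hP n s y
        have b3 := hP n s (2 * s - y)
        have b4 : |It κ b Φ p0 n s y - It κ b Φ p0 n s (2 * s - y) -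
            (P s y - P s (2 * s - y))| ≤ 2 * (C / 2 ^ n * Real.exp (4 * κ * K * |s|)) := by
          have d1 : It κ b Φ p0 n s y - It κ b Φ p0 n s (2 * s - y) -
            (P s y - P s (2 * s - y)) =
            (It κ b Φ p0 n s y - P s y) - (It κ b Φ p0 n s (2 * s - y) - P s (2 * s - y)) := by
            ring
          rw [d1]
          refine (abs_sub _ _).trans ?_
          linarith
        have b5 := mul_le_mul_of_nonneg_left b4 hK.le
        refine (b1.trans b5).trans (le_of_eq ?_)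
        ring
      refine squeeze_zero (fun _ => dist_nonneg) h3 ?_
      have h1 := hzero.const_mul ((2 * K * C) / (4 * κ * K) * Real.exp (4 * κ * K * |t|))
      rw [mul_zero] at h1
      refine h1.congr (fun n => ?_)
      ring
    have h3 : Tendsto (fun n => It κ b Φ p0 (n + 1) t y) atTop
        (𝓝 (p0 y - κ * ∫ s in (0 : ℝ)..t, b (y - s) * Φ (P s y - P s (2 * s - y)))) :=
      tendsto_const_nhds.sub (h2.const_mul κ)
    exact tendsto_nhds_unique h1 h3

end Setup

end Pool.Agent.Helper72_Shell
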