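import Pool.Agent.Helper39_Wave.Trunc
import Pool.Agent.Helper72_Shell.Exist
import Pool.Agent.Helper72_Shell.Basic

/-!
Truncated nonlinearity, maximum principle with a weight, and existence of a `CharSol` which is `C¹`.
-/

set_option autoImplicit false

open Real Filter Topology Set MeasureTheory

namespace Pool.Agent.Helper72_Shell

open Pool.Agent.Helper39_Wave (phi phi_neg phi_zero om Ph om_cont om_uc om_nonneg om_le Ph_deriv
  Ph_neg Ph_nonneg Ph_eq integral_swap_cont integral_reflect)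

/-- Maximum principle for a general nonlinearity with a weight. -/
theorem max_principle {κ ℓ : ℝ} {Φ b : ℝ → ℝ} {P : ℝ → ℝ → ℝ} (hκ : 0 < κ) (hℓ : 0 < ℓ)
    (hbc : Continuous b) (hb0 : ∀ x, 0 ≤ b x)
    (hΦc : Continuous Φ) (hΦ0 : ∀ s, 0 ≤ s → 0 ≤ Φ s)
    (cont : Continuous (fun z : ℝ × ℝ => P z.1 z.2))
    (per : ∀ t y, P t (y + 2 * ℓ) = P t y)
    (ode : ∀ t1 t2 y, 0 ≤ t1 → t1 ≤ t2 →
      P t2 y - P t1 y = -κ * ∫ s in t1..t2, b (y - s) * Φ (P s y - P s (2 * s - y)))
    {t0 M : ℝ} (ht0 : 0 ≤ t0) (hM : ∀ y, P t0 y ≤ M) :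
    ∀ t, t0 ≤ t → ∀ y, P t y ≤ M := by
  intro t1 ht1 y1
  by_contra hcon
  push Not at hcon
  have hlt : t0 < t1 := by
    rcases ht1.eq_or_lt with h1 | h1
    · subst h1; exact absurd (hM y1) (not_le.mpr hcon)
    · exact h1
  set ε : ℝ := (P t1 y1 - M) / (2 * (t1 - t0)) with hε
  have hεpos : 0 < ε := div_pos (by linarith) (by linarith)
  have hε1 : ε * (t1 - t0) < P t1 y1 - M := by
    have h1 : ε * (t1 - t0) = (P t1 y1 - M) / 2 := by
      rw [hε]; field_simp [(by linarith : t1 - t0 ≠ 0)]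
    rw [h1]; linarith
  have hl2 : 0 < 2 * ℓ := by linarith
  have hper : ∀ t, Function.Periodic (P t) (2 * ℓ) := fun t y => per t y
  obtain ⟨y1', hy1', hy1e⟩ := (hper t1).exists_mem_Ico₀ hl2 y1
  set K : Set (ℝ × ℝ) := Icc t0 t1 ×ˢ Icc 0 (2 * ℓ) with hK
  have hKc : IsCompact K := isCompact_Icc.prod isCompact_Icc
  have hmem1 : ((t1, y1') : ℝ × ℝ) ∈ K := ⟨⟨hlt.le, le_rfl⟩, ⟨hy1'.1, hy1'.2.le⟩⟩
  have hcontQ : ContinuousOn (fun z : ℝ × ℝ => P z.1 z.2 - ε * (z.1 - t0)) K :=
    (cont.sub (by fun_prop)).continuousOn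
  obtain ⟨⟨ts, ys⟩, hz, hmax⟩ := hKc.exists_isMaxOn ⟨_, hmem1⟩ hcontQ
  have hmax' : ∀ t y, t0 ≤ t → t ≤ t1 → P t y - ε * (t - t0) ≤ P ts ys - ε * (ts - t0) := by
    intro t y h1 h2
    obtain ⟨y', hy', hye⟩ := (hper t).exists_mem_Ico₀ hl2 y
    have := hmax (show ((t, y') : ℝ × ℝ) ∈ K from ⟨⟨h1, h2⟩, ⟨hy'.1, hy'.2.le⟩⟩)
    rw [hye]
    exact this
  have hts : t0 ≤ ts ∧ ts ≤ t1 := hz.1
  have hgt : M < P ts ys - ε * (ts - t0) := by
    have := hmax' t1 y1 hlt.le le_rfl
    linarith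
  have hts0 : t0 < ts := by
    rcases hts.1.eq_or_lt with h1 | h1
    · rw [← h1] at hgt
      have := hM ys
      linarith
    · exact h1
  have hD : 0 ≤ P ts ys - P ts (2 * ts - ys) := by
    have := hmax' ts (2 * ts - ys) hts.1 hts.2
    linarith
  have hf0 : 0 ≤ b (ys - ts) * Φ (P ts ys - P ts (2 * ts - ys)) := mul_nonneg (hb0 _) (hΦ0 _ hD)
  have hcf : Continuous (fun s : ℝ => b (ys - s) * Φ (P s ys - P s (2 * s - ys))) := by
    apply Continuous.mul (hbc.comp (by fun_prop))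
    apply hΦc.comp
    apply Continuous.sub
    · exact cont.comp (by fun_prop : Continuous fun s : ℝ => (s, ys))
    · exact cont.comp (by fun_prop : Continuous fun s : ℝ => (s, 2 * s - ys))
  have hev : ∀ᶠ s in 𝓝 ts, -(ε / (2 * κ)) < b (ys - s) * Φ (P s ys - P s (2 * s - ys)) := by
    apply hcf.continuousAt.eventually (lt_mem_nhds _)
    have : 0 < ε / (2 * κ) := div_pos hεpos (by linarith)
    simp only
    linarith
  obtain ⟨δ, hδ, hball⟩ := Metric.eventually_nhds_iff.mp hev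
  set s0 : ℝ := max t0 (ts - δ / 2) with hs0
  have hs0lt : s0 < ts := max_lt hts0 (by linarith)
  have hs0ge : t0 ≤ s0 := le_max_left _ _
  have hode := ode s0 ts ys (ht0.trans hs0ge) hs0lt.le
  have hint : -(ε / (2 * κ)) * (ts - s0) ≤
      ∫ s in s0..ts, b (ys - s) * Φ (P s ys - P s (2 * s - ys)) := by
    have h1 : ∫ _s in s0..ts, (-(ε / (2 * κ))) = (ts - s0) * (-(ε / (2 * κ))) := by
      rw [intervalIntegral.integral_const, smul_eq_mul]
    have h2 : ∫ _s in s0..ts, (-(ε / (2 * κ))) ≤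
        ∫ s in s0..ts, b (ys - s) * Φ (P s ys - P s (2 * s - ys)) := by
      apply intervalIntegral.integral_mono_on hs0lt.le (by simp) (hcf.intervalIntegrable _ _)
      intro s hs
      apply le_of_lt
      apply hball
      rw [Real.dist_eq, abs_lt]
      have := le_max_right t0 (ts - δ / 2)
      constructor <;> linarith [hs.1, hs.2]
    rw [h1] at h2
    linarith
  have h5 : P ts ys - P s0 ys ≤ ε / 2 * (ts - s0) := by
    rw [hode]
    have h6 : κ * (-(ε / (2 * κ)) * (ts - s0)) ≤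
        κ * ∫ s in s0..ts, b (ys - s) * Φ (P s ys - P s (2 * s - ys)) :=
      mul_le_mul_of_nonneg_left hint hκ.le
    have h7 : κ * (-(ε / (2 * κ)) * (ts - s0)) = -(ε / 2 * (ts - s0)) := by
      field_simp
    rw [h7] at h6
    linarith
  have h8 := hmax' s0 ys hs0ge (hs0lt.le.trans hts.2)
  have h9 : ε / 2 * (ts - s0) < ε * (ts - s0) := by
    have : 0 < ε * (ts - s0) := mul_pos hεpos (by linarith)
    linarith
  linarith

/-- A weight: even, `2ℓ`-periodic, with kinks only at the multiples of `ℓ`. -/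
structure Wt (ℓ K1 b0 : ℝ) (b b1 : ℝ → ℝ) : Prop where
  lpos : 0 < ℓ
  b0pos : 0 < b0
  K1nn : 0 ≤ K1
  bcont : Continuous b
  beven : ∀ x, b (-x) = b x
  bper : ∀ x, b (x + 2 * ℓ) = b x
  blo : ∀ x, b0 ≤ b x
  bhi : ∀ x, b x ≤ 1
  b1cont : Continuous b1
  b1K : ∀ x, |b1 x| ≤ K1
  hb : ∀ x, Real.sin (π / ℓ * x) ≠ 0 → HasDerivAt b (sg ℓ x * b1 x) x

variable {α : ℝ}

theorem setup_cos {κ α ℓ K1 b0 : ℝ} {b b1 : ℝ → ℝ} (hκ : 0 < κ) (hα : 0 < α)
    (hw : Wt ℓ K1 b0 b b1) :
    Setup κ ((α + 1) * 2 ^ α) (1 + π / ℓ) ℓ K1 b b1 (Ph α) (om α) (fun y => Real.cos (π / ℓ * y))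
      (fun y => -(π / ℓ * Real.sin (π / ℓ * y))) where
  kpos := hκ
  Kpos := by positivity
  Bnn := by have := hw.lpos; positivity
  lpos := hw.lpos
  K1nn := hw.K1nn
  bcont := hw.bcont
  bper := hw.bper
  bnn := fun x => hw.b0pos.le.trans (hw.blo x)
  bhi := hw.bhi
  b1cont := hw.b1cont
  b1K := hw.b1K
  hb := hw.hb
  hΦ := Ph_deriv hα
  hΦodd := Ph_neg α
  hω := om_uc hα
  hωK := om_le hα
  hp := by
    intro y
    have h1 : HasDerivAt (fun y : ℝ => π / ℓ * y) (π / ℓ) y := by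
      simpa using (hasDerivAt_id y).const_mul (π / ℓ)
    have h2 := h1.cos
    have h3 : -Real.sin (π / ℓ * y) * (π / ℓ) = -(π / ℓ * Real.sin (π / ℓ * y)) := by ring
    rw [h3] at h2
    exact h2
  hpper := by
    intro y
    have hℓ := hw.lpos
    have hπ : π / ℓ * (2 * ℓ) = 2 * π := by field_simp
    rw [mul_add, hπ, Real.cos_add_two_pi]
  hp1 := by fun_prop
  hp0B := by
    intro y
    have hℓ := hw.lpos
    have h1 := Real.abs_cos_le_one (π / ℓ * y)
    have h2 : 0 ≤ π / ℓ := by positivity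
    linarith
  hp1B := by
    intro y
    have hℓ := hw.lpos
    have h1 := Real.abs_sin_le_one (π / ℓ * y)
    have h2 : 0 ≤ π / ℓ := by positivity
    rw [abs_neg, abs_mul, abs_of_nonneg h2]
    nlinarith

/-- Existence of a `C¹` solution in characteristic form. -/
theorem exists_charSol {κ α ℓ K1 b0 : ℝ} {b b1 : ℝ → ℝ} (hκ : 0 < κ) (hα : 0 < α)
    (hw : Wt ℓ K1 b0 b b1) :
    ∃ P D : ℝ → ℝ → ℝ, CharSol κ α ℓ b0 b P ∧ Continuous (fun z : ℝ × ℝ => D z.1 z.2) ∧
      (∀ t y, HasDerivAt (fun y => P t y) (D t y) y) ∧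
      (∀ t y, P t y = Real.cos (π / ℓ * y) - κ * ∫ s in (0 : ℝ)..t,
        b (y - s) * Ph α (P s y - P s (2 * s - y))) ∧
      (∀ t, 0 ≤ t → ∀ y, |P t y| ≤ 1) := by
  have hset := setup_cos hκ hα hw
  have hℓ := hw.lpos
  obtain ⟨P, D, cP, cD, hPD, hper, hP⟩ := hset.exists_sol
  have cPh : Continuous (Ph α) := hset.cΦ
  have hπ : π / ℓ * (2 * ℓ) = 2 * π := by field_simp
  have cI : ∀ y, Continuous (fun s => b (y - s) * Ph α (P s y - P s (2 * s - y))) := by
    intro y
    apply Continuous.mul (hw.bcont.comp (by fun_prop))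
    apply cPh.comp
    apply Continuous.sub
    · exact cP.comp (by fun_prop : Continuous fun s : ℝ => (s, y))
    · exact cP.comp (by fun_prop : Continuous fun s : ℝ => (s, 2 * s - y))
  have hode : ∀ t1 t2 y, P t2 y - P t1 y =
      -κ * ∫ s in t1..t2, b (y - s) * Ph α (P s y - P s (2 * s - y)) := by
    intro t1 t2 y
    rw [hP t2 y, hP t1 y]
    have h1 := intervalIntegral.integral_interval_sub_left
      ((cI y).intervalIntegrable (μ := volume) 0 t2)
      ((cI y).intervalIntegrable (μ := volume) 0 t1)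
    rw [← h1]
    ring
  have h0 : ∀ y, P 0 y = Real.cos (π / ℓ * y) := by
    intro y
    rw [hP 0 y]; simp
  have hbnn : ∀ x, 0 ≤ b x := fun x => hw.b0pos.le.trans (hw.blo x)
  have hup : ∀ t, 0 ≤ t → ∀ y, P t y ≤ 1 :=
    max_principle hκ hℓ hw.bcont hbnn cPh (Ph_nonneg hα) cP hper
      (fun t1 t2 y _ _ => hode t1 t2 y) le_rfl
      (fun y => by rw [h0]; exact Real.cos_le_one _)
  have hdown : ∀ t, 0 ≤ t → ∀ y, -P t y ≤ 1 := by
    apply max_principle (P := fun t y => -P t y) hκ hℓ hw.bcont hbnn cPh (Ph_nonneg hα) cP.neg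
      (fun t y => by rw [hper]) _ le_rfl
      (fun y => by rw [h0]; linarith [Real.neg_one_le_cos (π / ℓ * y)])
    intro t1 t2 y _ _
    have h3 := hode t1 t2 y
    have h4 : ∀ s, b (y - s) * Ph α (-P s y - -P s (2 * s - y)) =
        -(b (y - s) * Ph α (P s y - P s (2 * s - y))) := by
      intro s
      rw [← mul_neg, ← Ph_neg]
      congr 2; ring
    simp_rw [h4]
    rw [intervalIntegral.integral_neg]
    linarith
  have hb : ∀ t, 0 ≤ t → ∀ y, |P t y| ≤ 1 := by
    intro t ht y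
    rw [abs_le]
    constructor
    · linarith [hdown t ht y]
    · exact hup t ht y
  refine ⟨P, D, ?_, cD, hPD, hP, hb⟩
  refine ⟨hκ, hα, hℓ, hw.b0pos, hw.bcont, hw.beven, hw.bper, hw.blo, hw.bhi, cP, hper, ?_, ?_⟩
  · intro t1 t2 y ht1 ht12
    rw [hode t1 t2 y]
    congr 1
    apply intervalIntegral.integral_congr
    intro s hs
    rw [uIcc_of_le ht12] at hs
    simp only
    congr 1
    apply Ph_eq hα
    have b1 := abs_le.mp (hb s (ht1.trans hs.1) y)
    have b2 := abs_le.mp (hb s (ht1.trans hs.1) (2 * s - y))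
    rw [abs_le]
    constructor <;> linarith
  · intro t _
    have cPt : Continuous (fun y => Real.cos (π / ℓ * y)) := by fun_prop
    have cJ : Continuous (fun z : ℝ × ℝ => b (z.1 - z.2) *
        Ph α (P z.2 z.1 - P z.2 (2 * z.2 - z.1))) := by
      apply Continuous.mul (hw.bcont.comp (by fun_prop))
      apply cPh.comp
      apply Continuous.sub
      · exact cP.comp (by fun_prop : Continuous fun z : ℝ × ℝ => (z.2, z.1))
      · exact cP.comp (by fun_prop : Continuous fun z : ℝ × ℝ => (z.2, 2 * z.2 - z.1))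
    have cJ2 : Continuous (fun y => κ * ∫ s in (0 : ℝ)..t, b (y - s) *
        Ph α (P s y - P s (2 * s - y))) := by
      apply continuous_const.mul
      apply intervalIntegral.continuous_parametric_intervalIntegral_of_continuous'
      exact cJ
    simp_rw [hP t]
    rw [intervalIntegral.integral_sub (cPt.intervalIntegrable _ _) (cJ2.intervalIntegrable _ _),
      intervalIntegral.integral_const_mul, integral_swap_cont cJ]
    have e1 : ∀ s, ∫ y in (0 : ℝ)..(2 * ℓ), b (y - s) * Ph α (P s y - P s (2 * s - y)) = 0 := by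
      intro s
      have e2 : ∫ y in (0 : ℝ)..(2 * ℓ), b ((2 * s - y) - s) *
          Ph α (P s (2 * s - y) - P s (2 * s - (2 * s - y))) =
          ∫ y in (0 : ℝ)..(2 * ℓ), b (y - s) * Ph α (P s y - P s (2 * s - y)) := by
        apply integral_reflect (g := fun y => b (y - s) * Ph α (P s y - P s (2 * s - y)))
        intro y
        simp only
        rw [hper]
        have h1 := hper s (2 * s - (y + 2 * ℓ))
        rw [← h1]
        have h2 : b (y + 2 * ℓ - s) = b (y - s) := by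
          rw [← hw.bper (y - s)]
          congr 1; ring
        rw [h2]
        congr 4; ring
      have e3 : ∀ y, b ((2 * s - y) - s) * Ph α (P s (2 * s - y) - P s (2 * s - (2 * s - y))) =
          -(b (y - s) * Ph α (P s y - P s (2 * s - y))) := by
        intro y
        have h1 : b ((2 * s - y) - s) = b (y - s) := by
          rw [← hw.beven (y - s)]
          congr 1; ring
        rw [h1, ← mul_neg, ← Ph_neg]
        congr 2
        rw [show 2 * s - (2 * s - y) = y by ring]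
        ring
      simp_rw [e3] at e2
      rw [intervalIntegral.integral_neg] at e2
      linarith
    simp_rw [e1]
    rw [intervalIntegral.integral_zero, mul_zero, sub_zero]
    have hπℓ : π / ℓ ≠ 0 := by positivity
    rw [intervalIntegral.integral_comp_mul_left (f := Real.cos) hπℓ, integral_cos, hπ]
    simp

/-- The weight of a spherical shell with inner radius `r0`. -/
noncomputable def bw (r0 α ℓ x : ℝ) : ℝ := (r0 / (r0 + fold ℓ x)) ^ α

/-- The derivative of the weight, up to sign. -/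
noncomputable def bw1 (r0 α ℓ x : ℝ) : ℝ :=
  -(α * (r0 / (r0 + fold ℓ x)) ^ α / (r0 + fold ℓ x))

theorem wt_shell {r0 α ℓ : ℝ} (hr : 0 < r0) (hα : 0 < α) (hℓ : 0 < ℓ) :
    Wt ℓ (α / r0) ((r0 / (r0 + ℓ)) ^ α) (bw r0 α ℓ) (bw1 r0 α ℓ) := by
  have hf0 : ∀ x, 0 ≤ fold ℓ x := fold_nonneg hℓ
  have hpos : ∀ x, 0 < r0 + fold ℓ x := fun x => by linarith [hf0 x]
  have hc : Continuous (fun x => r0 / (r0 + fold ℓ x)) :=
    continuous_const.div (continuous_const.add (fold_continuous ℓ)) (fun x => (hpos x).ne')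
  have hbc : Continuous (bw r0 α ℓ) := by
    unfold bw
    exact hc.rpow_const (fun x => Or.inr hα.le)
  have hb1 : ∀ x, bw r0 α ℓ x ≤ 1 := by
    intro x
    unfold bw
    apply Real.rpow_le_one
    · exact (div_pos hr (hpos x)).le
    · rw [div_le_one (hpos x)]; linarith [hf0 x]
    · exact hα.le
  have hbnn : ∀ x, 0 ≤ bw r0 α ℓ x := fun x => Real.rpow_nonneg (div_pos hr (hpos x)).le _
  refine ⟨hℓ, ?_, ?_, hbc, ?_, ?_, ?_, hb1, ?_, ?_, ?_⟩
  · apply Real.rpow_pos_of_pos; positivity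
  · positivity
  · intro x
    unfold bw
    rw [fold_neg]
  · intro x
    unfold bw
    rw [fold_per hℓ]
  · intro x
    unfold bw
    apply Real.rpow_le_rpow (by positivity) _ hα.le
    apply div_le_div_of_nonneg_left hr.le (hpos x)
    linarith [fold_le hℓ x]
  · have : bw1 r0 α ℓ = fun x => -(α * bw r0 α ℓ x / (r0 + fold ℓ x)) := rfl
    rw [this]
    apply Continuous.neg
    exact (continuous_const.mul hbc).div (continuous_const.add (fold_continuous ℓ))
      (fun x => (hpos x).ne')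
  · intro x
    have : bw1 r0 α ℓ x = -(α * bw r0 α ℓ x / (r0 + fold ℓ x)) := rfl
    rw [this, abs_neg, abs_div, abs_mul, abs_of_pos hα, abs_of_nonneg (hbnn x), abs_of_pos (hpos x)]
    apply div_le_div₀ hα.le _ hr (by linarith [hf0 x])
    calc α * bw r0 α ℓ x ≤ α * 1 := mul_le_mul_of_nonneg_left (hb1 x) hα.le
      _ = α := mul_one _
  · intro x hx
    have h1 := fold_hasDerivAt hℓ hx
    have h2 : HasDerivAt (fun x => r0 + fold ℓ x) (sg ℓ x) x := h1.const_add r0
    have h3 : HasDerivAt (fun x => r0 / (r0 + fold ℓ x))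
        (-(r0 * sg ℓ x) / (r0 + fold ℓ x) ^ 2) x := by
      have h4 := (hasDerivAt_const x r0).div h2 (hpos x).ne'
      rw [zero_mul, zero_sub] at h4
      exact h4
    have h5 := h3.rpow_const (p := α) (Or.inl (div_pos hr (hpos x)).ne')
    have h6 : -(r0 * sg ℓ x) / (r0 + fold ℓ x) ^ 2 * α *
        (r0 / (r0 + fold ℓ x)) ^ (α - 1) = sg ℓ x * bw1 r0 α ℓ x := by
      unfold bw1
      rw [Real.rpow_sub_one (div_pos hr (hpos x)).ne']
      have := (hpos x).ne'
      field_simp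
    rw [h6] at h5
    exact h5

end Pool.Agent.Helper72_Shell
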