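import Pool.Agent.Helper39_Wave.Build
import Pool.Agent.Helper72_Shell.Trunc
import Pool.Agent.Helper72_Shell.Rate

/-!
Classical solutions of the damped wave equation on an interval with a variable coefficient.
-/

set_option autoImplicit false

open Real Filter Topology Set MeasureTheory

namespace Pool.Agent.Helper72_Shell

open Pool.Agent.Helper39_Wave (phi phi_neg phi_zero om Ph om_cont om_uc om_nonneg om_le Ph_deriv
  Ph_neg Ph_nonneg Ph_eq hasDerivAt_param_integral hasFDerivAt_of_partials
  contDiff_succ_of_partials)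

/-- The classical solution built from the characteristic form. -/
theorem build {κ α ℓ b0 : ℝ} {b : ℝ → ℝ} {P D : ℝ → ℝ → ℝ} (h : CharSol κ α ℓ b0 b P)
    (cD : Continuous (fun z : ℝ × ℝ => D z.1 z.2))
    (hD : ∀ t y, HasDerivAt (fun y => P t y) (D t y) y)
    (hP : ∀ t y, P t y = Real.cos (π / ℓ * y) - κ * ∫ s in (0 : ℝ)..t,
        b (y - s) * Ph α (P s y - P s (2 * s - y)))
    (hb : ∀ t, 0 ≤ t → ∀ y, |P t y| ≤ 1) :
    ∃ u v w : ℝ → ℝ → ℝ, ContDiff ℝ 2 (fun z : ℝ × ℝ => u z.1 z.2) ∧
      (∀ t x, HasDerivAt (fun t => u t x) (v t x) t) ∧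
      (∀ t x, HasDerivAt (fun x => u t x) (w t x) x) ∧
      (∀ t x, v t x = (P t (t + x) - P t (t - x)) / 2) ∧
      (∀ t x, w t x = (P t (t + x) + P t (t - x)) / 2) ∧
      (∀ t, 0 ≤ t → ∀ x, ∃ vt wx : ℝ, HasDerivAt (fun t => v t x) vt t ∧
        HasDerivAt (fun x => w t x) wx x ∧ vt - wx = -(2 ^ (α + 1) * κ) * (b x * phi α (v t x))) ∧
      (∀ t, u t 0 = 0) ∧ (∀ t, 0 ≤ t → u t ℓ = 0) := by
  have hκ := h.kpos
  have hα := h.apos
  have hℓ := h.lpos
  have cP := h.cont
  have cPh : Continuous (Ph α) :=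
    continuous_iff_continuousAt.mpr fun s => (Ph_deriv hα s).continuousAt
  have cb := h.bcont
  have cI : ∀ y, Continuous (fun s => b (y - s) * Ph α (P s y - P s (2 * s - y))) := by
    intro y
    apply Continuous.mul (cb.comp (by fun_prop))
    apply cPh.comp
    exact (h.contP (by fun_prop) (by fun_prop)).sub (h.contP (by fun_prop) (by fun_prop))
  -- time derivative of `P`
  have hPt : ∀ t y, HasDerivAt (fun t => P t y) (-κ * (b (y - t) * Ph α (P t y - P t (2 * t - y)))) t := by
    intro t y
    have h1 : HasDerivAt (fun t => Real.cos (π / ℓ * y) - κ * ∫ s in (0 : ℝ)..t,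
        b (y - s) * Ph α (P s y - P s (2 * s - y)))
        (-(κ * (b (y - t) * Ph α (P t y - P t (2 * t - y))))) t := by
      apply HasDerivAt.const_sub
      apply HasDerivAt.const_mul
      exact intervalIntegral.integral_hasDerivAt_right ((cI y).intervalIntegrable _ _)
        ((cI y).stronglyMeasurableAtFilter _ _) (cI y).continuousAt
    rw [← neg_mul] at h1
    refine h1.congr_of_eventuallyEq ?_
    filter_upwards with s
    exact hP s y
  have cPt : Continuous (fun z : ℝ × ℝ =>
      -κ * (b (z.2 - z.1) * Ph α (P z.1 z.2 - P z.1 (2 * z.1 - z.2)))) := by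
    apply continuous_const.mul
    apply Continuous.mul (cb.comp (by fun_prop))
    apply cPh.comp
    exact (h.contP (by fun_prop) (by fun_prop)).sub (h.contP (by fun_prop) (by fun_prop))
  have hF : ∀ z : ℝ × ℝ, HasFDerivAt (fun z : ℝ × ℝ => P z.1 z.2)
      ((-κ * (b (z.2 - z.1) * Ph α (P z.1 z.2 - P z.1 (2 * z.1 - z.2)))) • ContinuousLinearMap.fst ℝ ℝ ℝ +
        D z.1 z.2 • ContinuousLinearMap.snd ℝ ℝ ℝ) z :=
    hasFDerivAt_of_partials (f1 := fun t y => -κ * (b (y - t) * Ph α (P t y - P t (2 * t - y))))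
      (f2 := D) hPt hD cPt cD
  have hC1 : ContDiff ℝ 1 (fun z : ℝ × ℝ => P z.1 z.2) := by
    have := contDiff_succ_of_partials (n := 0) hPt hD (contDiff_zero.mpr cPt) (contDiff_zero.mpr cD)
    simpa using this
  -- derivatives along the lines
  have hplus : ∀ t x, HasDerivAt (fun t => P t (t + x))
      (-κ * (b x * Ph α (P t (t + x) - P t (t - x))) + D t (t + x)) t := by
    intro t x
    have h1 : HasDerivAt (fun t : ℝ => ((t, t + x) : ℝ × ℝ)) ((1, 1) : ℝ × ℝ) t :=
      (hasDerivAt_id t).prodMk ((hasDerivAt_id t).add_const x)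
    have h2 := (hF (t, t + x)).comp_hasDerivAt t h1
    have h3 : ((-κ * (b (t + x - t) * Ph α (P t (t + x) - P t (2 * t - (t + x))))) •
        ContinuousLinearMap.fst ℝ ℝ ℝ +
        D t (t + x) • ContinuousLinearMap.snd ℝ ℝ ℝ) ((1, 1) : ℝ × ℝ) =
        -κ * (b x * Ph α (P t (t + x) - P t (t - x))) + D t (t + x) := by
      have e1 : 2 * t - (t + x) = t - x := by ring
      have e2 : t + x - t = x := by ring
      rw [e1, e2]; simp
    rw [h3] at h2
    exact h2
  have hminus : ∀ t x, HasDerivAt (fun t => P t (t - x))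
      (κ * (b x * Ph α (P t (t + x) - P t (t - x))) + D t (t - x)) t := by
    intro t x
    have h1 := hplus t (-x)
    have e1 : -κ * (b (-x) * Ph α (P t (t + -x) - P t (t - -x))) + D t (t + -x) =
        κ * (b x * Ph α (P t (t + x) - P t (t - x))) + D t (t - x) := by
      have e2 : P t (t + -x) - P t (t - -x) = -(P t (t + x) - P t (t - x)) := by
        rw [sub_neg_eq_add, ← sub_eq_add_neg]; ring
      rw [e2, Ph_neg, h.beven, ← sub_eq_add_neg]; ring
    rw [e1] at h1
    exact h1
  have hxplus : ∀ t x, HasDerivAt (fun x => P t (t + x)) (D t (t + x)) x := by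
    intro t x
    have h1 : HasDerivAt (fun x : ℝ => t + x) 1 x := (hasDerivAt_id x).const_add t
    have h2 := (hD t (t + x)).comp x h1
    rw [mul_one] at h2
    exact h2
  have hxminus : ∀ t x, HasDerivAt (fun x => P t (t - x)) (-D t (t - x)) x := by
    intro t x
    have h1 : HasDerivAt (fun x : ℝ => t - x) (-1) x := (hasDerivAt_id x).const_sub t
    have h2 := (hD t (t - x)).comp x h1
    rw [mul_neg_one] at h2
    exact h2
  set v : ℝ → ℝ → ℝ := fun t x => (P t (t + x) - P t (t - x)) / 2 with hv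
  set w : ℝ → ℝ → ℝ := fun t x => (P t (t + x) + P t (t - x)) / 2 with hw
  have cDp : Continuous (fun z : ℝ × ℝ => D z.1 (z.1 + z.2)) :=
    cD.comp (by fun_prop : Continuous fun z : ℝ × ℝ => (z.1, z.1 + z.2))
  have cDm : Continuous (fun z : ℝ × ℝ => D z.1 (z.1 - z.2)) :=
    cD.comp (by fun_prop : Continuous fun z : ℝ × ℝ => (z.1, z.1 - z.2))
  have hvx : ∀ t x, HasDerivAt (fun x => v t x) ((D t (t + x) + D t (t - x)) / 2) x := by
    intro t x
    have h1 := ((hxplus t x).sub (hxminus t x)).div_const 2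
    rw [sub_neg_eq_add] at h1
    exact h1
  have hwx : ∀ t x, HasDerivAt (fun x => w t x) ((D t (t + x) - D t (t - x)) / 2) x := by
    intro t x
    have h1 := ((hxplus t x).add (hxminus t x)).div_const 2
    rw [← sub_eq_add_neg] at h1
    exact h1
  have hwt : ∀ t x, HasDerivAt (fun t => w t x) ((D t (t + x) + D t (t - x)) / 2) t := by
    intro t x
    have h1 := ((hplus t x).add (hminus t x)).div_const 2
    have e1 : (-κ * (b x * Ph α (P t (t + x) - P t (t - x))) + D t (t + x) +
        (κ * (b x * Ph α (P t (t + x) - P t (t - x))) + D t (t - x))) / 2 =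
        (D t (t + x) + D t (t - x)) / 2 := by ring
    rw [e1] at h1
    exact h1
  have hvt : ∀ t x, HasDerivAt (fun t => v t x)
      (-κ * (b x * Ph α (P t (t + x) - P t (t - x))) + (D t (t + x) - D t (t - x)) / 2) t := by
    intro t x
    have h1 := ((hplus t x).sub (hminus t x)).div_const 2
    have e1 : (-κ * (b x * Ph α (P t (t + x) - P t (t - x))) + D t (t + x) -
        (κ * (b x * Ph α (P t (t + x) - P t (t - x))) + D t (t - x))) / 2 =
        -κ * (b x * Ph α (P t (t + x) - P t (t - x))) + (D t (t + x) - D t (t - x)) / 2 := by ring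
    rw [e1] at h1
    exact h1
  have cv : ContDiff ℝ 1 (fun z : ℝ × ℝ => v z.1 z.2) := by
    have a1 : ContDiff ℝ 1 (fun z : ℝ × ℝ => P z.1 (z.1 + z.2)) :=
      hC1.comp (contDiff_fst.prodMk (contDiff_fst.add contDiff_snd))
    have a2 : ContDiff ℝ 1 (fun z : ℝ × ℝ => P z.1 (z.1 - z.2)) :=
      hC1.comp (contDiff_fst.prodMk (contDiff_fst.sub contDiff_snd))
    exact (a1.sub a2).div_const 2
  have cw : ContDiff ℝ 1 (fun z : ℝ × ℝ => w z.1 z.2) := by
    have a1 : ContDiff ℝ 1 (fun z : ℝ × ℝ => P z.1 (z.1 + z.2)) :=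
      hC1.comp (contDiff_fst.prodMk (contDiff_fst.add contDiff_snd))
    have a2 : ContDiff ℝ 1 (fun z : ℝ × ℝ => P z.1 (z.1 - z.2)) :=
      hC1.comp (contDiff_fst.prodMk (contDiff_fst.sub contDiff_snd))
    exact (a1.add a2).div_const 2
  set u : ℝ → ℝ → ℝ := fun t x => ∫ z in (0 : ℝ)..x, w t z with hu
  have cwt : ∀ t, Continuous (w t) := fun t =>
    cw.continuous.comp (by fun_prop : Continuous fun z : ℝ => (t, z))
  have hux : ∀ t x, HasDerivAt (fun x => u t x) (w t x) x := fun t x =>
    intervalIntegral.integral_hasDerivAt_right ((cwt t).intervalIntegrable _ _)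
      ((cwt t).stronglyMeasurableAtFilter _ _) (cwt t).continuousAt
  have hut : ∀ t x, HasDerivAt (fun t => u t x) (v t x) t := by
    intro t x
    have h1 := hasDerivAt_param_integral (F := w)
      (F' := fun t x => (D t (t + x) + D t (t - x)) / 2) ((cDp.add cDm).div_const 2) cwt
      hwt 0 x t
    have h2 : ∫ s in (0 : ℝ)..x, (D t (t + s) + D t (t - s)) / 2 = v t x - v t 0 := by
      apply intervalIntegral.integral_eq_sub_of_hasDerivAt (f := fun x => v t x)
      · intro s _
        exact hvx t s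
      · apply Continuous.intervalIntegrable
        exact ((cDp.add cDm).div_const 2).comp (by fun_prop : Continuous fun s : ℝ => (t, s))
    have h3 : v t 0 = 0 := by simp [hv]
    rw [h3, sub_zero] at h2
    rw [h2] at h1
    exact h1
  refine ⟨u, v, w, ?_, hut, hux, fun _ _ => rfl, fun _ _ => rfl, ?_, ?_, ?_⟩
  · have := contDiff_succ_of_partials (n := 1) hut hux cv cw
    have e : ((1 : ℕ) : WithTop ℕ∞) + 1 = 2 := by norm_num
    rw [e] at this
    exact this
  · intro t ht x
    refine ⟨_, _, hvt t x, hwx t x, ?_⟩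
    have b1 := abs_le.mp (hb t ht (t + x))
    have b2 := abs_le.mp (hb t ht (t - x))
    have e1 : Ph α (P t (t + x) - P t (t - x)) = phi α (P t (t + x) - P t (t - x)) :=
      Ph_eq hα (by rw [abs_le]; constructor <;> linarith)
    have e2 : P t (t + x) - P t (t - x) = 2 * v t x := by simp only [hv]; ring
    have e3 : phi α (2 * v t x) = 2 ^ (α + 1) * phi α (v t x) := by
      unfold phi
      rw [abs_mul, Real.mul_rpow (by norm_num) (abs_nonneg _), abs_of_pos (by norm_num : (0 : ℝ) < 2),
        Real.rpow_add_one (by norm_num : (2 : ℝ) ≠ 0)]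
      ring
    rw [e1, e2, e3]
    ring
  · intro t
    simp [hu]
  · intro t ht
    have cPt' : Continuous (P t) := h.contP continuous_const continuous_id
    have h1 : ∫ z in (0 : ℝ)..ℓ, w t z = ((∫ z in (0 : ℝ)..ℓ, P t (t + z)) +
        ∫ z in (0 : ℝ)..ℓ, P t (t - z)) / 2 := by
      have e1 : Continuous (fun z => P t (t + z)) := cPt'.comp (by fun_prop)
      have e2 : Continuous (fun z => P t (t - z)) := cPt'.comp (by fun_prop)
      rw [← intervalIntegral.integral_add (e1.intervalIntegrable _ _) (e2.intervalIntegrable _ _),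
        ← intervalIntegral.integral_div]
    show ∫ z in (0 : ℝ)..ℓ, w t z = 0
    rw [h1, intervalIntegral.integral_comp_add_left (P t),
      intervalIntegral.integral_comp_sub_left (P t), add_zero, sub_zero]
    rw [add_comm, intervalIntegral.integral_add_adjacent_intervals (cPt'.intervalIntegrable _ _)
      (cPt'.intervalIntegrable _ _)]
    have h2 := h.integral_period ht (t - ℓ)
    have e3 : t - ℓ + 2 * ℓ = t + ℓ := by ring
    rw [e3] at h2
    rw [h2, zero_div]

end Pool.Agent.Helper72_Shell
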