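import Pool.Agent.Helper39_Wave.Glue
import Pool.Agent.Helper72_Shell.Trunc
import Pool.Agent.Helper72_Shell.Rate

/-!
From classical solutions of the equation with a variable coefficient to the characteristic form.
-/

set_option autoImplicit false

open Real Filter Topology Set MeasureTheory

namespace Pool.Agent.Helper72_Shell

open Pool.Agent.Helper39_Wave (phi phi_neg phi_zero continuous_phi rr rr_eq rr_exists GG)

/-- Data of a classical solution. -/
structure Classical (a α ℓ K1 b0 : ℝ) (b b1 : ℝ → ℝ) (v w : ℝ → ℝ → ℝ) : Prop where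
  apos : 0 < a
  αpos : 0 < α
  wt : Wt ℓ K1 b0 b b1
  cv : Continuous (fun z : ℝ × ℝ => v z.1 z.2)
  cw : Continuous (fun z : ℝ × ℝ => w z.1 z.2)
  v0 : ∀ t, 0 ≤ t → v t 0 = 0
  vl : ∀ t, 0 ≤ t → v t ℓ = 0
  plus : ∀ t x, 0 < t → 0 < x → x < ℓ →
    HasDerivAt (fun s => w s (x + t - s) + v s (x + t - s)) (-a * (b x * phi α (v t x))) t
  minus : ∀ t x, 0 < t → 0 < x → x < ℓ →
    HasDerivAt (fun s => w s (x - t + s) - v s (x - t + s)) (a * (b x * phi α (v t x))) t
  mean : ∀ t, 0 ≤ t → ∫ x in (0 : ℝ)..ℓ, w t x = 0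

namespace Classical

variable {a α ℓ K1 b0 : ℝ} {b b1 : ℝ → ℝ} {v w : ℝ → ℝ → ℝ}

theorem GG_even (h : Classical a α ℓ K1 b0 b b1 v w) {t x : ℝ} {m : ℤ} (h1 : 0 ≤ x - 2 * ℓ * m)
    (h2 : x - 2 * ℓ * m ≤ ℓ) :
    GG ℓ v w t x = w (max t 0) (x - 2 * ℓ * m) + v (max t 0) (x - 2 * ℓ * m) := by
  have hℓ := h.wt.lpos
  rcases h2.lt_or_eq with h3 | h3
  · have e := rr_eq hℓ (by linarith) h3
    unfold GG
    rw [e, if_pos h1]
  · have e : rr ℓ x = x - 2 * ℓ * ((m + 1 : ℤ) : ℝ) :=
      rr_eq hℓ (by push_cast; linarith) (by push_cast; linarith)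
    have e2 : rr ℓ x = -ℓ := by rw [e]; push_cast; linarith
    unfold GG
    rw [e2, if_neg (by linarith), h3, neg_neg, h.vl _ (le_max_right _ _)]
    ring

theorem GG_odd (h : Classical a α ℓ K1 b0 b b1 v w) {t x : ℝ} {m : ℤ} (h1 : 0 ≤ 2 * ℓ * m - x)
    (h2 : 2 * ℓ * m - x ≤ ℓ) :
    GG ℓ v w t x = w (max t 0) (2 * ℓ * m - x) - v (max t 0) (2 * ℓ * m - x) := by
  have hℓ := h.wt.lpos
  have e : rr ℓ x = x - 2 * ℓ * m := rr_eq hℓ (by linarith) (by linarith)
  rcases h1.lt_or_eq with h3 | h3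
  · unfold GG
    rw [e, if_neg (by linarith)]
    have : -(x - 2 * ℓ * m) = 2 * ℓ * m - x := by ring
    rw [this]
  · have e2 : rr ℓ x = 0 := by rw [e]; linarith
    unfold GG
    rw [e2, if_pos le_rfl, ← h3, h.v0 _ (le_max_right _ _)]
    ring

theorem GG_cont (h : Classical a α ℓ K1 b0 b b1 v w) : Continuous (fun z : ℝ × ℝ => GG ℓ v w z.1 z.2) := by
  have hℓ := h.wt.lpos
  have cmax : Continuous (fun z : ℝ × ℝ => max z.1 0) := continuous_fst.max continuous_const
  have cA : ∀ c : ℝ, Continuous (fun z : ℝ × ℝ => w (max z.1 0) (z.2 - c) + v (max z.1 0) (z.2 - c)) := by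
    intro c
    have e : Continuous (fun z : ℝ × ℝ => (max z.1 0, z.2 - c)) :=
      cmax.prodMk (by fun_prop)
    exact (h.cw.comp e).add (h.cv.comp e)
  have cB : ∀ c : ℝ, Continuous (fun z : ℝ × ℝ => w (max z.1 0) (c - z.2) - v (max z.1 0) (c - z.2)) := by
    intro c
    have e : Continuous (fun z : ℝ × ℝ => (max z.1 0, c - z.2)) :=
      cmax.prodMk (by fun_prop)
    exact (h.cw.comp e).sub (h.cv.comp e)
  rw [continuous_iff_continuousAt]
  rintro ⟨t0, x0⟩
  obtain ⟨m, hm1, hm2⟩ := rr_exists hℓ x0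
  rcases hm1.lt_or_eq with hm3 | hm3
  · -- interior of the even cell
    have c1 : Continuous (fun z : ℝ × ℝ => if z.2 ≤ 2 * ℓ * m then
        w (max z.1 0) (2 * ℓ * m - z.2) - v (max z.1 0) (2 * ℓ * m - z.2)
        else w (max z.1 0) (z.2 - 2 * ℓ * m) + v (max z.1 0) (z.2 - 2 * ℓ * m)) := by
      apply Continuous.if_le (cB _) (cA _) continuous_snd continuous_const
      intro z hz
      rw [hz, sub_self, h.v0 _ (le_max_right _ _)]
      ring
    refine c1.continuousAt.congr ?_
    have hopen : IsOpen ((fun z : ℝ × ℝ => z.2 - 2 * ℓ * m) ⁻¹' Ioo (-ℓ) ℓ) :=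
      isOpen_Ioo.preimage (by fun_prop)
    filter_upwards [hopen.mem_nhds (⟨hm3, hm2⟩ :
      (t0, x0) ∈ ((fun z : ℝ × ℝ => z.2 - 2 * ℓ * m) ⁻¹' Ioo (-ℓ) ℓ))] with z hz
    have hz' : -ℓ < z.2 - 2 * ℓ * m ∧ z.2 - 2 * ℓ * m < ℓ := hz
    show _ = GG ℓ v w z.1 z.2
    split_ifs with hc
    · rw [h.GG_odd (m := m) (by linarith) (by linarith)]
    · rw [h.GG_even (m := m) (by linarith) (by linarith)]
  · -- the point is at an odd multiple of `ℓ`
    have c1 : Continuous (fun z : ℝ × ℝ => if z.2 ≤ 2 * ℓ * m - ℓ then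
        w (max z.1 0) (z.2 - 2 * ℓ * ((m - 1 : ℤ) : ℝ)) + v (max z.1 0) (z.2 - 2 * ℓ * ((m - 1 : ℤ) : ℝ))
        else w (max z.1 0) (2 * ℓ * m - z.2) - v (max z.1 0) (2 * ℓ * m - z.2)) := by
      apply Continuous.if_le (cA _) (cB _) continuous_snd continuous_const
      intro z hz
      have e1 : z.2 - 2 * ℓ * ((m - 1 : ℤ) : ℝ) = ℓ := by push_cast; rw [hz]; ring
      have e2 : 2 * ℓ * m - z.2 = ℓ := by rw [hz]; ring
      rw [e1, e2, h.vl _ (le_max_right _ _)]
      ring
    refine c1.continuousAt.congr ?_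
    have hopen : IsOpen ((fun z : ℝ × ℝ => z.2 - 2 * ℓ * m) ⁻¹' Ioo (-(2 * ℓ)) 0) :=
      isOpen_Ioo.preimage (by fun_prop)
    filter_upwards [hopen.mem_nhds (⟨by simp only; linarith, by simp only; linarith⟩ :
      (t0, x0) ∈ ((fun z : ℝ × ℝ => z.2 - 2 * ℓ * m) ⁻¹' Ioo (-(2 * ℓ)) 0))] with z hz
    have hz' : -(2 * ℓ) < z.2 - 2 * ℓ * m ∧ z.2 - 2 * ℓ * m < 0 := hz
    show _ = GG ℓ v w z.1 z.2
    split_ifs with hc
    · rw [h.GG_even (m := m - 1) (by push_cast; linarith) (by push_cast; linarith)]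
    · rw [h.GG_odd (m := m) (by linarith) (by linarith)]

theorem GG_per (h : Classical a α ℓ K1 b0 b b1 v w) (t x : ℝ) : GG ℓ v w t (x + 2 * ℓ) = GG ℓ v w t x := by
  have hℓ := h.wt.lpos
  obtain ⟨m, hm1, hm2⟩ := rr_exists hℓ x
  have e : rr ℓ x = x - 2 * ℓ * m := rr_eq hℓ hm1 hm2
  have e2 : rr ℓ (x + 2 * ℓ) = x - 2 * ℓ * m := by
    rw [rr_eq hℓ (n := m + 1) (by push_cast; linarith) (by push_cast; linarith)]
    push_cast; ring
  unfold GG
  rw [e, e2]

theorem integral_GG (h : Classical a α ℓ K1 b0 b b1 v w) {F : ℝ → ℝ} (hF : Continuous F) {t : ℝ}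
    (ht : 0 ≤ t) : ∫ y in (0 : ℝ)..(2 * ℓ), F (GG ℓ v w t (y - max t 0)) =
      ∫ x in (0 : ℝ)..ℓ, (F (w t x + v t x) + F (w t x - v t x)) := by
  have hℓ := h.wt.lpos
  set g : ℝ → ℝ := fun x => F (GG ℓ v w t x) with hg
  have hgp : Function.Periodic g (2 * ℓ) := by
    intro x
    simp only [hg]
    rw [h.GG_per]
  have cg : Continuous g :=
    hF.comp (h.GG_cont.comp (by fun_prop : Continuous fun x : ℝ => (t, x)))
  have hmt : max t 0 = t := max_eq_left ht
  have e1 : ∫ y in (0 : ℝ)..(2 * ℓ), F (GG ℓ v w t (y - max t 0)) =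
      ∫ y in (0 : ℝ)..(2 * ℓ), g (y - t) := by rw [hmt]
  rw [e1, intervalIntegral.integral_comp_sub_right g]
  have e2 : 2 * ℓ - t = (0 - t) + 2 * ℓ := by ring
  rw [e2, hgp.intervalIntegral_add_eq (0 - t) (-ℓ)]
  have e3 : -ℓ + 2 * ℓ = ℓ := by ring
  rw [e3, ← intervalIntegral.integral_add_adjacent_intervals (cg.intervalIntegrable (-ℓ) 0)
    (cg.intervalIntegrable 0 ℓ)]
  have e4 : ∫ x in (-ℓ)..0, g x = ∫ x in (0 : ℝ)..ℓ, g (-x) := by
    rw [intervalIntegral.integral_comp_neg g]
    simp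
  have cgn : Continuous (fun x => g (-x)) := cg.comp (by fun_prop)
  rw [e4, ← intervalIntegral.integral_add (cgn.intervalIntegrable _ _) (cg.intervalIntegrable _ _)]
  apply intervalIntegral.integral_congr
  intro x hx
  rw [uIcc_of_le hℓ.le] at hx
  simp only [hg]
  have e5 := h.GG_even (t := t) (x := x) (m := 0) (by simpa using hx.1) (by simpa using hx.2)
  have e6 := h.GG_odd (t := t) (x := -x) (m := 0) (by simpa using hx.1) (by simpa using hx.2)
  rw [e5, e6, hmt]
  simp only [Int.cast_zero, mul_zero, sub_zero, zero_sub, neg_neg]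
  ring

theorem charSol (h : Classical a α ℓ K1 b0 b b1 v w) :
    CharSol (a / 2 ^ (α + 1)) α ℓ b0 b (fun t y => GG ℓ v w t (y - max t 0)) := by
  have hℓ := h.wt.lpos
  have ha := h.apos
  have hα := h.αpos
  have h2 : (0 : ℝ) < 2 ^ (α + 1) := by positivity
  have cmax : Continuous (fun z : ℝ × ℝ => max z.1 0) := continuous_fst.max continuous_const
  have cP : Continuous (fun z : ℝ × ℝ => GG ℓ v w z.1 (z.2 - max z.1 0)) :=
    h.GG_cont.comp (continuous_fst.prodMk (continuous_snd.sub cmax))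
  have hphi2 : ∀ s : ℝ, (a / 2 ^ (α + 1)) * phi α (2 * s) = a * phi α s := by
    intro s
    have e3 : phi α (2 * s) = 2 ^ (α + 1) * phi α s := by
      unfold phi
      rw [abs_mul, Real.mul_rpow (by norm_num) (abs_nonneg _), abs_of_pos (by norm_num : (0 : ℝ) < 2),
        Real.rpow_add_one (by norm_num : (2 : ℝ) ≠ 0)]
      ring
    rw [e3]
    field_simp
  have hbp : Function.Periodic b (2 * ℓ) := h.wt.bper
  have hbe : ∀ (x : ℝ) (m : ℤ), b (x - 2 * ℓ * m) = b x := by
    intro x m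
    have e := hbp.int_mul (-m) x
    rw [← e]
    congr 1; push_cast; ring
  have hbo : ∀ (x : ℝ) (m : ℤ), b (2 * ℓ * m - x) = b x := by
    intro x m
    rw [← hbe x m, ← h.wt.beven (x - 2 * ℓ * m)]
    congr 1; ring
  refine ⟨by positivity, hα, hℓ, h.wt.b0pos, h.wt.bcont, h.wt.beven, h.wt.bper, h.wt.blo,
    h.wt.bhi, cP, ?_, ?_, ?_⟩
  · intro t y
    have e : y + 2 * ℓ - max t 0 = (y - max t 0) + 2 * ℓ := by ring
    rw [e, h.GG_per]
  · intro t1 t2 y ht1 ht12
    have cI : Continuous (fun s => b (y - s) * phi α (GG ℓ v w s (y - max s 0) -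
        GG ℓ v w s (2 * s - y - max s 0))) := by
      apply Continuous.mul (h.wt.bcont.comp (by fun_prop))
      apply (continuous_phi hα).comp
      apply Continuous.sub
      · exact cP.comp (by fun_prop : Continuous fun s : ℝ => (s, y))
      · exact cP.comp (by fun_prop : Continuous fun s : ℝ => (s, 2 * s - y))
    set κ : ℝ := a / 2 ^ (α + 1) with hκ
    have key := integral_eq_of_hasDerivAt_off_countable_of_le
      (fun s => GG ℓ v w s (y - max s 0))
      (fun s => -κ * (b (y - s) *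
        phi α (GG ℓ v w s (y - max s 0) - GG ℓ v w s (2 * s - y - max s 0))))
      ht12 (s := range (fun n : ℤ => y - ℓ * n)) (countable_range _)
      (cP.comp (by fun_prop : Continuous fun s : ℝ => (s, y))).continuousOn
      (by
        rintro t ⟨ht, htn⟩
        have ht0 : 0 < t := lt_of_le_of_lt ht1 ht.1
        have hmt : max t 0 = t := max_eq_left ht0.le
        obtain ⟨m, hm1, hm2⟩ := rr_exists hℓ (y - t)
        have hne1 : y - t - 2 * ℓ * m ≠ 0 := by
          intro hc
          apply htn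
          refine ⟨2 * m, ?_⟩
          push_cast
          linarith
        have hne2 : -ℓ ≠ y - t - 2 * ℓ * m := by
          intro hc
          apply htn
          refine ⟨2 * m - 1, ?_⟩
          push_cast
          linarith
        have hm3 : -ℓ < y - t - 2 * ℓ * m := lt_of_le_of_ne hm1 hne2
        have hpos : ∀ᶠ s in 𝓝 t, 0 < s := lt_mem_nhds ht0
        rcases lt_or_gt_of_ne hne1 with hc | hc
        · -- reflected cell
          have hx0 : 0 < 2 * ℓ * m - (y - t) := by linarith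
          have hxl : 2 * ℓ * m - (y - t) < ℓ := by linarith
          have hd := h.minus t (2 * ℓ * m - (y - t)) ht0 hx0 hxl
          have e1 : GG ℓ v w t (y - max t 0) = w t (2 * ℓ * m - (y - t)) -
              v t (2 * ℓ * m - (y - t)) := by
            rw [hmt, h.GG_odd (m := m) (by linarith) (by linarith), hmt]
          have e2 : GG ℓ v w t (2 * t - y - max t 0) = w t (2 * ℓ * m - (y - t)) +
              v t (2 * ℓ * m - (y - t)) := by
            rw [hmt, h.GG_even (m := -m) (by push_cast; linarith) (by push_cast; linarith), hmt]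
            have : 2 * t - y - t - 2 * ℓ * ((-m : ℤ) : ℝ) = 2 * ℓ * m - (y - t) := by
              push_cast; ring
            rw [this]
          have e3 : -κ * (b (y - t) *
              phi α (GG ℓ v w t (y - max t 0) - GG ℓ v w t (2 * t - y - max t 0))) =
              a * (b (2 * ℓ * m - (y - t)) * phi α (v t (2 * ℓ * m - (y - t)))) := by
            rw [hbo, e1, e2]
            have e4 := hphi2 (v t (2 * ℓ * m - (y - t)))
            have : w t (2 * ℓ * m - (y - t)) - v t (2 * ℓ * m - (y - t)) -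
              (w t (2 * ℓ * m - (y - t)) + v t (2 * ℓ * m - (y - t))) =
              -(2 * v t (2 * ℓ * m - (y - t))) := by ring
            rw [this, phi_neg]
            calc _ = b (y - t) * (κ * phi α (2 * v t (2 * ℓ * m - (y - t)))) := by ring
              _ = _ := by rw [e4]; ring
          rw [e3]
          refine hd.congr_of_eventuallyEq ?_
          have hev : ∀ᶠ s in 𝓝 t, 2 * ℓ * m - (y - s) ∈ Ioo 0 ℓ := by
            have : Continuous (fun s : ℝ => 2 * ℓ * m - (y - s)) := by fun_prop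
            exact this.continuousAt.eventually (isOpen_Ioo.mem_nhds ⟨hx0, hxl⟩)
          filter_upwards [hpos, hev] with s hs hs2
          have hms : max s 0 = s := max_eq_left hs.le
          rw [hms, h.GG_odd (m := m) hs2.1.le hs2.2.le, hms]
          have : 2 * ℓ * m - (y - t) - t + s = 2 * ℓ * m - (y - s) := by ring
          rw [this]
        · have hx0 : 0 < y - t - 2 * ℓ * m := hc
          have hxl : y - t - 2 * ℓ * m < ℓ := hm2
          have hd := h.plus t (y - t - 2 * ℓ * m) ht0 hx0 hxl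
          have e1 : GG ℓ v w t (y - max t 0) = w t (y - t - 2 * ℓ * m) +
              v t (y - t - 2 * ℓ * m) := by
            rw [hmt, h.GG_even (m := m) hx0.le hxl.le, hmt]
          have e2 : GG ℓ v w t (2 * t - y - max t 0) = w t (y - t - 2 * ℓ * m) -
              v t (y - t - 2 * ℓ * m) := by
            rw [hmt, h.GG_odd (m := -m) (by push_cast; linarith) (by push_cast; linarith), hmt]
            have : 2 * ℓ * ((-m : ℤ) : ℝ) - (2 * t - y - t) = y - t - 2 * ℓ * m := by
              push_cast; ring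
            rw [this]
          have e3 : -κ * (b (y - t) *
              phi α (GG ℓ v w t (y - max t 0) - GG ℓ v w t (2 * t - y - max t 0))) =
              -a * (b (y - t - 2 * ℓ * m) * phi α (v t (y - t - 2 * ℓ * m))) := by
            rw [hbe, e1, e2]
            have e4 := hphi2 (v t (y - t - 2 * ℓ * m))
            have e5 : w t (y - t - 2 * ℓ * m) + v t (y - t - 2 * ℓ * m) -
              (w t (y - t - 2 * ℓ * m) - v t (y - t - 2 * ℓ * m)) =
              2 * v t (y - t - 2 * ℓ * m) := by ring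
            rw [e5]
            calc _ = -(b (y - t) * (κ * phi α (2 * v t (y - t - 2 * ℓ * m)))) := by ring
              _ = _ := by rw [e4]; ring
          rw [e3]
          refine hd.congr_of_eventuallyEq ?_
          have hev : ∀ᶠ s in 𝓝 t, y - s - 2 * ℓ * m ∈ Ioo 0 ℓ := by
            have : Continuous (fun s : ℝ => y - s - 2 * ℓ * m) := by fun_prop
            exact this.continuousAt.eventually (isOpen_Ioo.mem_nhds ⟨hx0, hxl⟩)
          filter_upwards [hpos, hev] with s hs hs2
          have hms : max s 0 = s := max_eq_left hs.le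
          rw [hms, h.GG_even (m := m) hs2.1.le hs2.2.le, hms]
          have : y - t - 2 * ℓ * m + t - s = y - s - 2 * ℓ * m := by ring
          rw [this])
      ((continuous_const.mul cI).intervalIntegrable _ _)
    rw [← key, intervalIntegral.integral_const_mul]
  · intro t ht
    have e := h.integral_GG continuous_id ht
    simp only [id] at e
    rw [e]
    have e2 : ∀ x, w t x + v t x + (w t x - v t x) = 2 * w t x := by intro x; ring
    simp_rw [e2]
    rw [intervalIntegral.integral_const_mul, h.mean t ht, mul_zero]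

theorem En_eq (h : Classical a α ℓ K1 b0 b b1 v w) {t : ℝ} (ht : 0 ≤ t) :
    En ℓ (fun t y => GG ℓ v w t (y - max t 0)) t =
      2 * ∫ x in (0 : ℝ)..ℓ, (v t x ^ 2 + w t x ^ 2) := by
  unfold En
  have e := h.integral_GG (F := fun s => s ^ 2) (by fun_prop) ht
  rw [e, ← intervalIntegral.integral_const_mul]
  congr 1
  funext x
  ring

/-- The two-sided decay rate for classical solutions. -/
theorem rate (h : Classical a α ℓ K1 b0 b b1 v w) (h0 : 0 < ∫ x in (0 : ℝ)..ℓ, (v 0 x ^ 2 + w 0 x ^ 2)) :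
    ∃ c C : ℝ, 0 < c ∧ 0 < C ∧ ∀ t, 0 ≤ t →
      c * (1 + t) ^ (-(2 / α)) ≤ ∫ x in (0 : ℝ)..ℓ, (v t x ^ 2 + w t x ^ 2) ∧
      ∫ x in (0 : ℝ)..ℓ, (v t x ^ 2 + w t x ^ 2) ≤ C * (1 + t) ^ (-(2 / α)) := by
  obtain ⟨c, C, hc, hC, hr⟩ := h.charSol.rate (by rw [h.En_eq le_rfl]; linarith)
  refine ⟨c / 2, C / 2, by positivity, by positivity, ?_⟩
  intro t ht
  have := hr t ht
  rw [h.En_eq ht] at this
  constructor <;> linarith [this.1, this.2]

end Classical

end Pool.Agent.Helper72_Shell
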