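import Mathlib

/-!
Radial functions on three-dimensional Euclidean space: gradient, Laplacian, integrals over
spherical shells.
-/

set_option autoImplicit false

open Real Filter Topology Set MeasureTheory InnerProductSpace Laplacian

namespace Pool.Agent.Helper72_Shell

/-- three-dimensional Euclidean space -/
abbrev E3 := EuclideanSpace ℝ (Fin 3)

/-- the inner product as a continuous bilinear map -/
noncomputable def J : E3 →L[ℝ] E3 →L[ℝ] ℝ := innerSL ℝ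

theorem hasFDerivAt_norm3 {x : E3} (hx : x ≠ 0) :
    HasFDerivAt (fun y : E3 => ‖y‖) (‖x‖⁻¹ • innerSL ℝ x) x := by
  have h0 : ‖x‖ ≠ 0 := norm_ne_zero_iff.mpr hx
  have h1 := (hasStrictFDerivAt_norm_sq x).hasFDerivAt
  have h2 := h1.sqrt (by positivity)
  have h3 : (fun y : E3 => √(‖y‖ ^ 2)) = fun y => ‖y‖ := by
    funext y; rw [Real.sqrt_sq (norm_nonneg _)]
  rw [h3, Real.sqrt_sq (norm_nonneg _)] at h2
  have e : (1 / (2 * ‖x‖)) • (2 • innerSL ℝ x) = ‖x‖⁻¹ • innerSL ℝ x := by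
    rw [← Nat.cast_smul_eq_nsmul ℝ, smul_smul]
    congr 1
    push_cast
    field_simp
  rw [e] at h2
  exact h2

theorem hasFDerivAt_radial {g : ℝ → ℝ} {g' : ℝ} {x : E3} (hx : x ≠ 0)
    (hg : HasDerivAt g g' ‖x‖) :
    HasFDerivAt (fun y : E3 => g ‖y‖) ((g' / ‖x‖) • innerSL ℝ x) x := by
  have h1 := hg.comp_hasFDerivAt x (hasFDerivAt_norm3 hx)
  rw [smul_smul, ← div_eq_mul_inv] at h1
  exact h1

/-- The Laplacian of a radial function. -/
theorem laplacian_radial {g g1 : ℝ → ℝ} {g2 : ℝ} {x : E3} (hx : x ≠ 0)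
    (h1 : ∀ᶠ r in 𝓝 ‖x‖, HasDerivAt g (g1 r) r) (h2 : HasDerivAt g1 g2 ‖x‖) :
    (Δ (fun y : E3 => g ‖y‖)) x = g2 + 2 / ‖x‖ * g1 ‖x‖ := by
  have h0 : ‖x‖ ≠ 0 := norm_ne_zero_iff.mpr hx
  have hev : ∀ᶠ y in 𝓝 x, fderiv ℝ (fun y : E3 => g ‖y‖) y = (g1 ‖y‖ / ‖y‖) • J y := by
    have c1 : Tendsto (fun y : E3 => ‖y‖) (𝓝 x) (𝓝 ‖x‖) := continuous_norm.continuousAt
    filter_upwards [c1.eventually h1, isOpen_ne.mem_nhds hx] with y hy hy0
    exact (hasFDerivAt_radial hy0 hy).fderiv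
  have hh : HasDerivAt (fun r => g1 r / r) ((g2 * ‖x‖ - g1 ‖x‖ * 1) / ‖x‖ ^ 2) ‖x‖ :=
    h2.div (hasDerivAt_id ‖x‖) h0
  have hJ : HasFDerivAt (fun y : E3 => J y) J x := J.hasFDerivAt
  have h3 := (hasFDerivAt_radial hx hh).smul hJ
  have h4 : fderiv ℝ (fderiv ℝ (fun y : E3 => g ‖y‖)) x = _ :=
    (h3.congr_of_eventuallyEq hev).fderiv
  rw [laplacian_eq_iteratedFDeriv_orthonormalBasis _ (EuclideanSpace.basisFun (Fin 3) ℝ)]
  simp only [iteratedFDeriv_two_apply, h4]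
  have hJa : ∀ y z : E3, J y z = inner ℝ y z := fun y z => rfl
  have hn : ‖x‖ ^ 2 = x 0 ^ 2 + x 1 ^ 2 + x 2 ^ 2 := by
    rw [EuclideanSpace.norm_sq_eq, Fin.sum_univ_three]
    simp
  simp only [Fin.sum_univ_three, Matrix.cons_val_zero, Matrix.cons_val_one, add_apply, smul_apply,
    ContinuousLinearMap.smulRight_apply,
    hJa, innerSL_apply_apply, smul_eq_mul, EuclideanSpace.basisFun_apply,
    EuclideanSpace.inner_single_right]
  simp
  calc _ = 3 * (g1 ‖x‖ / ‖x‖) + (g2 * ‖x‖ - g1 ‖x‖) / ‖x‖ ^ 2 / ‖x‖ *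
        (x 0 ^ 2 + x 1 ^ 2 + x 2 ^ 2) := by ring
    _ = g2 + 2 / ‖x‖ * g1 ‖x‖ := by
      rw [← hn]
      field_simp
      ring

/-- The Laplacian of `F(‖x‖)/‖x‖`. -/
theorem laplacian_div {F F1 : ℝ → ℝ} {F2 : ℝ} {x : E3} (hx : x ≠ 0)
    (h1 : ∀ᶠ r in 𝓝 ‖x‖, HasDerivAt F (F1 r) r) (h2 : HasDerivAt F1 F2 ‖x‖) :
    (Δ (fun y : E3 => F ‖y‖ / ‖y‖)) x = F2 / ‖x‖ := by
  have h0 : ‖x‖ ≠ 0 := norm_ne_zero_iff.mpr hx
  have hd1 : ∀ᶠ r in 𝓝 ‖x‖, HasDerivAt (fun r => F r / r) ((F1 r * r - F r * 1) / r ^ 2) r := by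
    filter_upwards [h1, isOpen_ne.mem_nhds h0] with r hr hr0
    exact hr.div (hasDerivAt_id r) hr0
  have hF0 : HasDerivAt F (F1 ‖x‖) ‖x‖ := h1.self_of_nhds
  have hd2 : HasDerivAt (fun r => (F1 r * r - F r * 1) / r ^ 2)
      (((F2 * ‖x‖ + F1 ‖x‖ * 1 - F1 ‖x‖ * 1) * ‖x‖ ^ 2 -
        (F1 ‖x‖ * ‖x‖ - F ‖x‖ * 1) * (((2 : ℕ) : ℝ) * ‖x‖ ^ (2 - 1) * 1)) / (‖x‖ ^ 2) ^ 2) ‖x‖ := by
    apply HasDerivAt.div _ _ (by positivity)
    · exact (h2.mul (hasDerivAt_id ‖x‖)).sub (hF0.mul_const 1)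
    · exact (hasDerivAt_id ‖x‖).pow 2
  rw [laplacian_radial (g := fun r => F r / r) hx hd1 hd2]
  push_cast
  field_simp
  ring

/-- Integration of a radial function over a spherical shell. -/
theorem integral_shell (f : ℝ → ℝ) {r0 r1 : ℝ} (h0 : 0 < r0) (h01 : r0 < r1) :
    ∫ x in {x : E3 | r0 < ‖x‖ ∧ ‖x‖ < r1}, f ‖x‖ =
      3 * volume.real (Metric.ball (0 : E3) 1) * ∫ r in r0..r1, r ^ 2 * f r := by
  have hm : MeasurableSet {x : E3 | r0 < ‖x‖ ∧ ‖x‖ < r1} := by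
    apply IsOpen.measurableSet
    exact (isOpen_lt continuous_const continuous_norm).inter
      (isOpen_lt continuous_norm continuous_const)
  rw [← integral_indicator hm]
  have e1 : (fun x : E3 => indicator {x : E3 | r0 < ‖x‖ ∧ ‖x‖ < r1} (fun x => f ‖x‖) x) =
      fun x : E3 => (indicator (Ioo r0 r1) f) ‖x‖ := by
    funext x
    by_cases hx : r0 < ‖x‖ ∧ ‖x‖ < r1
    · rw [indicator_of_mem (show x ∈ {x : E3 | r0 < ‖x‖ ∧ ‖x‖ < r1} from hx),
        indicator_of_mem (show ‖x‖ ∈ Ioo r0 r1 from hx)]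
    · rw [indicator_of_notMem (show x ∉ {x : E3 | r0 < ‖x‖ ∧ ‖x‖ < r1} from hx),
        indicator_of_notMem (show ‖x‖ ∉ Ioo r0 r1 from hx)]
  rw [e1, integral_fun_norm_addHaar volume (indicator (Ioo r0 r1) f)]
  have e2 : ∀ y : ℝ, y ^ (Module.finrank ℝ E3 - 1) • indicator (Ioo r0 r1) f y =
      indicator (Ioo r0 r1) (fun r => r ^ 2 * f r) y := by
    intro y
    rw [show Module.finrank ℝ E3 - 1 = 2 by simp]
    by_cases hy : y ∈ Ioo r0 r1
    · rw [indicator_of_mem hy, indicator_of_mem hy, smul_eq_mul]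
    · rw [indicator_of_notMem hy, indicator_of_notMem hy, smul_zero]
  simp_rw [e2]
  rw [setIntegral_indicator measurableSet_Ioo]
  have e3 : Ioi (0 : ℝ) ∩ Ioo r0 r1 = Ioo r0 r1 := by
    apply inter_eq_right.mpr
    intro y hy
    exact lt_trans h0 hy.1
  rw [e3, ← integral_Ioc_eq_integral_Ioo, ← intervalIntegral.integral_of_le h01.le]
  simp only [finrank_euclideanSpace, Fintype.card_fin, nsmul_eq_mul, smul_eq_mul]
  push_cast
  ring

/-- The substitution `u = F/r` in the Dirichlet integral. -/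
theorem dirichlet_eq {r0 r1 : ℝ} (h0 : 0 < r0) (h01 : r0 < r1) {A B F : ℝ → ℝ}
    (hB : ∀ r ∈ Icc r0 r1, HasDerivAt F (B r) r) (cA : ContinuousOn A (Icc r0 r1))
    (cB : ContinuousOn B (Icc r0 r1)) (hF0 : F r0 = 0) (hF1 : F r1 = 0) :
    ∫ r in r0..r1, r ^ 2 * ((A r / r) ^ 2 + |(B r * r - F r * 1) / r ^ 2| ^ 2) =
      ∫ r in r0..r1, (A r ^ 2 + B r ^ 2) := by
  have cF : ContinuousOn F (Icc r0 r1) := fun r hr => (hB r hr).continuousAt.continuousWithinAt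
  have hne : ∀ r ∈ Icc r0 r1, r ≠ 0 := fun r hr => (lt_of_lt_of_le h0 hr.1).ne'
  have cid : ContinuousOn (fun r : ℝ => r) (Icc r0 r1) := continuousOn_id
  have cG : ContinuousOn (fun r => (2 * F r * B r * r - F r ^ 2) / r ^ 2) (Icc r0 r1) := by
    apply ContinuousOn.div
    · exact (((continuousOn_const.mul cF).mul cB).mul cid).sub (cF.pow 2)
    · exact cid.pow 2
    · intro r hr
      exact pow_ne_zero 2 (hne r hr)
  have cS : ContinuousOn (fun r => A r ^ 2 + B r ^ 2) (Icc r0 r1) := (cA.pow 2).add (cB.pow 2)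
  have e1 : ∫ r in r0..r1, r ^ 2 * ((A r / r) ^ 2 + |(B r * r - F r * 1) / r ^ 2| ^ 2) =
      ∫ r in r0..r1, ((A r ^ 2 + B r ^ 2) - (2 * F r * B r * r - F r ^ 2) / r ^ 2) := by
    apply intervalIntegral.integral_congr
    intro r hr
    rw [uIcc_of_le h01.le] at hr
    have := hne r hr
    simp only
    rw [sq_abs]
    field_simp
    ring
  have e2 : ∫ r in r0..r1, (2 * F r * B r * r - F r ^ 2) / r ^ 2 = 0 := by
    have h1 := intervalIntegral.integral_eq_sub_of_hasDerivAt (a := r0) (b := r1)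
      (f := fun r => F r ^ 2 / r) (f' := fun r => (2 * F r * B r * r - F r ^ 2) / r ^ 2)
      (fun r hr => by
        rw [uIcc_of_le h01.le] at hr
        have h2 := ((hB r hr).pow 2).div (hasDerivAt_id r) (hne r hr)
        have h3 : (((2 : ℕ) : ℝ) * F r ^ (2 - 1) * B r * id r - (F ^ 2) r * 1) / (id r) ^ 2 =
            (2 * F r * B r * r - F r ^ 2) / r ^ 2 := by
          simp only [id, Pi.pow_apply]
          push_cast
          ring
        rw [h3] at h2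
        exact h2)
      (cG.intervalIntegrable_of_Icc h01.le)
    rw [h1, hF0, hF1]
    ring
  rw [e1, intervalIntegral.integral_sub (cS.intervalIntegrable_of_Icc h01.le)
    (cG.intervalIntegrable_of_Icc h01.le), e2, sub_zero]

end Pool.Agent.Helper72_Shell
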