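import Pool.Agent.Helper72_Shell.Basic
import Pool.Agent.Helper39_Wave.Energy

/-!
Energy identity for the characteristic form with variable damping.
-/

set_option autoImplicit false

open Real Filter Topology Set MeasureTheory

namespace Pool.Agent.Helper72_Shell

open Pool.Agent.Helper39_Wave (phi phi_neg phi_zero phi_of_nonneg continuous_phi monotone_phi phi_nonneg mul_phi
  phi_sub_le phi_sq_le abs_rpow_sub_le phi_ge_tangent scalar_step hasDerivAt_phi abs_phi
  sq_integral_mul_le sq_integral_le integral_reflect integrableOn_rect integral_swap_cont J_bound)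

/-- The squared `L²` norm over a period. -/
noncomputable def En (ℓ : ℝ) (P : ℝ → ℝ → ℝ) (t : ℝ) : ℝ := ∫ y in (0 : ℝ)..(2 * ℓ), P t y ^ 2

/-- The dissipation. -/
noncomputable def psi (α ℓ : ℝ) (b : ℝ → ℝ) (P : ℝ → ℝ → ℝ) (s : ℝ) : ℝ :=
  ∫ y in (0 : ℝ)..(2 * ℓ), b (y - s) * |P s y - P s (2 * s - y)| ^ (α + 2)

/-- The nonlinearity along the solution. -/
noncomputable def ff (α : ℝ) (b : ℝ → ℝ) (P : ℝ → ℝ → ℝ) (s y : ℝ) : ℝ :=
  b (y - s) * phi α (P s y - P s (2 * s - y))

variable {κ α ℓ b0 : ℝ} {b : ℝ → ℝ} {P : ℝ → ℝ → ℝ}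

namespace CharSol

theorem cff (h : CharSol κ α ℓ b0 b P) {X : Type*} [TopologicalSpace X] {a1 a2 : X → ℝ}
    (ha : Continuous a1) (hb : Continuous a2) : Continuous (fun x => ff α b P (a1 x) (a2 x)) :=
  h.contF ha hb

theorem cD (h : CharSol κ α ℓ b0 b P) {X : Type*} [TopologicalSpace X] {a1 a2 : X → ℝ}
    (ha : Continuous a1) (hb : Continuous a2) :
    Continuous (fun x => b (a2 x - a1 x) *
      |P (a1 x) (a2 x) - P (a1 x) (2 * a1 x - a2 x)| ^ (α + 2)) := by
  apply Continuous.mul (h.bcont.comp (hb.sub ha))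
  apply Continuous.rpow_const
  · exact ((h.contP ha hb).sub (h.contP ha ((continuous_const.mul ha).sub hb))).abs
  · intro x
    right
    linarith [h.apos]

theorem ff_anti (h : CharSol κ α ℓ b0 b P) (s y : ℝ) :
    ff α b P s (2 * s - y) = -ff α b P s y := by
  unfold ff
  rw [← mul_neg, ← phi_neg]
  have e1 : b (2 * s - y - s) = b (y - s) := by
    rw [← h.beven (y - s)]
    congr 1; ring
  rw [e1]
  congr 2
  rw [show 2 * s - (2 * s - y) = y by ring]
  ring

theorem per_sub (h : CharSol κ α ℓ b0 b P) (s y : ℝ) : P s (y - 2 * ℓ) = P s y := by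
  have := h.per s (y - 2 * ℓ)
  rw [sub_add_cancel] at this
  exact this.symm

theorem ff_per (h : CharSol κ α ℓ b0 b P) (s : ℝ) : Function.Periodic (ff α b P s) (2 * ℓ) := by
  intro y
  unfold ff
  rw [h.per]
  have h1 : 2 * s - (y + 2 * ℓ) = (2 * s - y) - 2 * ℓ := by ring
  have h2 : y + 2 * ℓ - s = (y - s) + 2 * ℓ := by ring
  rw [h1, h.per_sub, h2, h.bper]

theorem integral_anti (h : CharSol κ α ℓ b0 b P) {G : ℝ → ℝ} (hG : Continuous G)
    (hper : Function.Periodic G (2 * ℓ)) (s : ℝ) :
    ∫ y in (0 : ℝ)..(2 * ℓ), ff α b P s y * (G y - G (2 * s - y)) =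
      2 * ∫ y in (0 : ℝ)..(2 * ℓ), ff α b P s y * G y := by
  have hf : Continuous (ff α b P s) := h.cff continuous_const continuous_id
  have hG2 : Continuous (fun y => G (2 * s - y)) := hG.comp (by fun_prop)
  have h1 : ∫ y in (0 : ℝ)..(2 * ℓ), ff α b P s y * G (2 * s - y) =
      -∫ y in (0 : ℝ)..(2 * ℓ), ff α b P s y * G y := by
    have h2 : ∀ y, ff α b P s y * G (2 * s - y) =
        -((fun z => ff α b P s z * G z) (2 * s - y)) := by
      intro y
      simp only
      rw [h.ff_anti]; ring
    simp_rw [h2]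
    rw [intervalIntegral.integral_neg]
    congr 1
    apply integral_reflect (g := fun z => ff α b P s z * G z)
    intro y
    simp only
    rw [hper y, h.ff_per s y]
  have h3 : ∀ y, ff α b P s y * (G y - G (2 * s - y)) =
      ff α b P s y * G y - ff α b P s y * G (2 * s - y) := by intro y; ring
  simp_rw [h3]
  have c1 : Continuous (fun y => ff α b P s y * G y) := hf.mul hG
  have c2 : Continuous (fun y => ff α b P s y * G (2 * s - y)) := hf.mul hG2
  rw [intervalIntegral.integral_sub (c1.intervalIntegrable _ _) (c2.intervalIntegrable _ _), h1]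
  ring

theorem psi_eq (h : CharSol κ α ℓ b0 b P) (s : ℝ) :
    psi α ℓ b P s = 2 * ∫ y in (0 : ℝ)..(2 * ℓ), ff α b P s y * P s y := by
  have hc : Continuous (P s) := h.contP continuous_const continuous_id
  rw [← h.integral_anti hc (h.periodic s) s]
  unfold psi
  congr 1
  funext y
  rw [← mul_phi h.apos]
  unfold ff
  ring

theorem psi_nonneg (h : CharSol κ α ℓ b0 b P) (s : ℝ) : 0 ≤ psi α ℓ b P s := by
  unfold psi
  apply intervalIntegral.integral_nonneg (by linarith [h.lpos])
  intro y _
  exact mul_nonneg (h.bnn _) (Real.rpow_nonneg (abs_nonneg _) _)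

theorem psi_cont (h : CharSol κ α ℓ b0 b P) : Continuous (psi α ℓ b P) := by
  unfold psi
  apply intervalIntegral.continuous_parametric_intervalIntegral_of_continuous'
  exact h.cD continuous_fst continuous_snd

/-- The energy identity. -/
theorem energy_identity (h : CharSol κ α ℓ b0 b P) {t1 t2 : ℝ} (ht1 : 0 ≤ t1) (ht : t1 ≤ t2) :
    En ℓ P t1 - En ℓ P t2 = κ * ∫ s in t1..t2, psi α ℓ b P s := by
  have hcP : Continuous (fun z : ℝ × ℝ => P z.1 z.2) := h.cont
  have hpt : ∀ y, P t2 y ^ 2 - P t1 y ^ 2 = ∫ s in t1..t2, (-2 * κ) * (ff α b P s y * P s y) := by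
    intro y
    symm
    apply intervalIntegral.integral_eq_sub_of_hasDerivAt_of_le ht
      (f := fun s => P s y ^ 2)
    · exact ((h.contP continuous_id continuous_const).pow 2).continuousOn
    · intro x hx
      have h1 := (h.hasDerivAt (lt_of_le_of_lt ht1 hx.1) y).pow 2
      have h2 : ((2 : ℕ) : ℝ) * P x y ^ (2 - 1) *
          (-κ * (b (y - x) * phi α (P x y - P x (2 * x - y)))) =
          (-2 * κ) * (ff α b P x y * P x y) := by
        unfold ff
        push_cast
        ring
      rw [h2] at h1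
      exact h1
    · apply Continuous.intervalIntegrable
      apply continuous_const.mul
      exact (h.cff continuous_id continuous_const).mul (h.contP continuous_id continuous_const)
  have h1 : En ℓ P t2 - En ℓ P t1 =
      ∫ y in (0 : ℝ)..(2 * ℓ), ∫ s in t1..t2, (-2 * κ) * (ff α b P s y * P s y) := by
    unfold En
    rw [← intervalIntegral.integral_sub]
    · congr 1
      funext y
      exact hpt y
    · exact ((h.contP continuous_const continuous_id).pow 2).intervalIntegrable _ _
    · exact ((h.contP continuous_const continuous_id).pow 2).intervalIntegrable _ _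
  have h2 : ∫ y in (0 : ℝ)..(2 * ℓ), ∫ s in t1..t2, (-2 * κ) * (ff α b P s y * P s y) =
      ∫ s in t1..t2, ∫ y in (0 : ℝ)..(2 * ℓ), (-2 * κ) * (ff α b P s y * P s y) := by
    apply integral_swap_cont
    apply continuous_const.mul
    exact (h.cff continuous_snd continuous_fst).mul (h.contP continuous_snd continuous_fst)
  have h3 : ∀ s, ∫ y in (0 : ℝ)..(2 * ℓ), (-2 * κ) * (ff α b P s y * P s y) =
      -κ * psi α ℓ b P s := by
    intro s
    rw [intervalIntegral.integral_const_mul, h.psi_eq]
    ring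
  simp_rw [h3] at h2
  rw [h2, intervalIntegral.integral_const_mul] at h1
  linarith

end CharSol

end Pool.Agent.Helper72_Shell
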