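import Pool.Agent.Helper72_Shell.Energy

/-!
The key one-step estimate for the energy drops, variable damping (steps of length `2ℓ`).
-/

set_option autoImplicit false

open Real Filter Topology Set MeasureTheory

namespace Pool.Agent.Helper72_Shell

open Pool.Agent.Helper39_Wave (phi phi_neg phi_zero phi_of_nonneg continuous_phi monotone_phi phi_nonneg mul_phi
  phi_sub_le phi_sq_le abs_rpow_sub_le phi_ge_tangent scalar_step hasDerivAt_phi abs_phi
  sq_integral_mul_le sq_integral_le integral_reflect integrableOn_rect integral_swap_cont J_bound)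

variable {κ α ℓ b0 : ℝ} {b : ℝ → ℝ} {P : ℝ → ℝ → ℝ}

namespace CharSol

theorem D_shift (h : CharSol κ α ℓ b0 b P) (t y : ℝ) :
    (P (t + (2 * ℓ)) y - P (t + (2 * ℓ)) (2 * (t + (2 * ℓ)) - y)) - (P t y - P t (2 * t - y)) =
      (P (t + (2 * ℓ)) y - P t y) - (P (t + (2 * ℓ)) (2 * (t + (2 * ℓ)) - y) - P t (2 * (t + (2 * ℓ)) - y)) := by
  have h1 : 2 * (t + (2 * ℓ)) - y = ((2 * t - y) + 2 * ℓ) + 2 * ℓ := by ring
  rw [h1, h.per t, h.per t]
  ring

theorem psi_step (h : CharSol κ α ℓ b0 b P) (t : ℝ) :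
    psi α ℓ b P (t + (2 * ℓ)) - psi α ℓ b P t ≤
      2 * (α + 2) * ∫ y in (0 : ℝ)..(2 * ℓ), ff α b P (t + (2 * ℓ)) y * (P (t + (2 * ℓ)) y - P t y) := by
  have hα := h.apos
  have hℓ := h.lpos
  set G : ℝ → ℝ := fun y => P (t + (2 * ℓ)) y - P t y with hG
  have hGc : Continuous G :=
    (h.contP continuous_const continuous_id).sub (h.contP continuous_const continuous_id)
  have hGp : Function.Periodic G (2 * ℓ) := by
    intro y
    simp only [hG]
    rw [h.per, h.per]
  have hbs : ∀ y, b (y - (t + (2 * ℓ))) = b (y - t) := by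
    intro y
    rw [← h.bper (y - (t + (2 * ℓ)))]
    congr 1; ring
  have hpt : ∀ y, b (y - (t + (2 * ℓ))) *
      |P (t + (2 * ℓ)) y - P (t + (2 * ℓ)) (2 * (t + (2 * ℓ)) - y)| ^ (α + 2) -
      b (y - t) * |P t y - P t (2 * t - y)| ^ (α + 2) ≤
      (α + 2) * (ff α b P (t + (2 * ℓ)) y * (G y - G (2 * (t + (2 * ℓ)) - y))) := by
    intro y
    rw [hbs y, ← mul_sub]
    have h1 := abs_rpow_sub_le hα (P t y - P t (2 * t - y))
      (P (t + (2 * ℓ)) y - P (t + (2 * ℓ)) (2 * (t + (2 * ℓ)) - y))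
    rw [h.D_shift] at h1
    have h2 : (α + 2) * (ff α b P (t + (2 * ℓ)) y * (G y - G (2 * (t + (2 * ℓ)) - y))) =
        b (y - t) * ((α + 2) * phi α (P (t + (2 * ℓ)) y - P (t + (2 * ℓ)) (2 * (t + (2 * ℓ)) - y)) *
        (P (t + (2 * ℓ)) y - P t y -
          (P (t + (2 * ℓ)) (2 * (t + (2 * ℓ)) - y) - P t (2 * (t + (2 * ℓ)) - y)))) := by
      simp only [hG, ff, hbs y]
      ring
    rw [h2]
    exact mul_le_mul_of_nonneg_left h1 (h.bnn _)
  have c1 : Continuous (fun y => b (y - (t + (2 * ℓ))) *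
      |P (t + (2 * ℓ)) y - P (t + (2 * ℓ)) (2 * (t + (2 * ℓ)) - y)| ^ (α + 2)) :=
    h.cD continuous_const continuous_id
  have c2 : Continuous (fun y => b (y - t) * |P t y - P t (2 * t - y)| ^ (α + 2)) :=
    h.cD continuous_const continuous_id
  have cf : Continuous (fun y => ff α b P (t + (2 * ℓ)) y) := h.cff continuous_const continuous_id
  have c3 : Continuous (fun y => (α + 2) * (ff α b P (t + (2 * ℓ)) y * (G y - G (2 * (t + (2 * ℓ)) - y)))) :=
    continuous_const.mul (cf.mul (hGc.sub (hGc.comp (by fun_prop))))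
  have h1 : psi α ℓ b P (t + (2 * ℓ)) - psi α ℓ b P t = ∫ y in (0 : ℝ)..(2 * ℓ),
      (b (y - (t + (2 * ℓ))) *
      |P (t + (2 * ℓ)) y - P (t + (2 * ℓ)) (2 * (t + (2 * ℓ)) - y)| ^ (α + 2) -
      b (y - t) * |P t y - P t (2 * t - y)| ^ (α + 2)) := by
    unfold psi
    rw [intervalIntegral.integral_sub (c1.intervalIntegrable _ _) (c2.intervalIntegrable _ _)]
  rw [h1]
  have h2 : ∫ y in (0 : ℝ)..(2 * ℓ), (b (y - (t + (2 * ℓ))) *
      |P (t + (2 * ℓ)) y - P (t + (2 * ℓ)) (2 * (t + (2 * ℓ)) - y)| ^ (α + 2) -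
      b (y - t) * |P t y - P t (2 * t - y)| ^ (α + 2)) ≤ ∫ y in (0 : ℝ)..(2 * ℓ),
      (α + 2) * (ff α b P (t + (2 * ℓ)) y * (G y - G (2 * (t + (2 * ℓ)) - y))) :=
    intervalIntegral.integral_mono_on (by linarith) ((c1.sub c2).intervalIntegrable _ _)
      (c3.intervalIntegrable _ _) (fun y _ => hpt y)
  refine h2.trans (le_of_eq ?_)
  rw [intervalIntegral.integral_const_mul, h.integral_anti hGc hGp]
  ring

theorem P_diff (h : CharSol κ α ℓ b0 b P) {t : ℝ} (ht : 0 ≤ t) (y : ℝ) :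
    P (t + (2 * ℓ)) y - P t y = -κ * ∫ r in t..(t + (2 * ℓ)), ff α b P r y :=
  h.ode t (t + (2 * ℓ)) y ht (by linarith [h.lpos])

theorem En_nonneg (h : CharSol κ α ℓ b0 b P) (t : ℝ) : 0 ≤ En ℓ P t := by
  unfold En
  exact intervalIntegral.integral_nonneg (by linarith [h.lpos]) (fun _ _ => sq_nonneg _)

theorem En_anti (h : CharSol κ α ℓ b0 b P) {t1 t2 : ℝ} (ht1 : 0 ≤ t1) (ht : t1 ≤ t2) :
    En ℓ P t2 ≤ En ℓ P t1 := by
  have h1 := h.energy_identity ht1 ht
  have h2 : 0 ≤ ∫ s in t1..t2, psi α ℓ b P s :=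
    intervalIntegral.integral_nonneg ht (fun s _ => h.psi_nonneg s)
  have := mul_nonneg h.kpos.le h2
  linarith

theorem drop_step (h : CharSol κ α ℓ b0 b P) {T : ℝ} (hT : 0 ≤ T) :
    (En ℓ P (T + (2 * ℓ)) - En ℓ P (T + 2 * (2 * ℓ))) - (En ℓ P T - En ℓ P (T + (2 * ℓ))) ≤
      2 * (α + 2) * κ * ∫ y in (0 : ℝ)..(2 * ℓ), ∫ t in T..(T + (2 * ℓ)),
        ff α b P (t + (2 * ℓ)) y * (-κ * ∫ r in t..(t + (2 * ℓ)), ff α b P r y) := by
  have hα := h.apos
  have hℓ := h.lpos
  have hκ := h.kpos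
  have e1 := h.energy_identity hT (by linarith : T ≤ T + (2 * ℓ))
  have e2 := h.energy_identity (by linarith : 0 ≤ T + (2 * ℓ)) (by linarith : T + (2 * ℓ) ≤ T + 2 * (2 * ℓ))
  have e3 : ∫ s in (T + (2 * ℓ))..(T + 2 * (2 * ℓ)), psi α ℓ b P s = ∫ s in T..(T + (2 * ℓ)), psi α ℓ b P (s + (2 * ℓ)) := by
    rw [intervalIntegral.integral_comp_add_right (psi α ℓ b P)]
    congr 1; ring
  rw [e1, e2, e3, ← mul_sub]
  have hpc := h.psi_cont
  have hpc2 : Continuous (fun s => psi α ℓ b P (s + (2 * ℓ))) := hpc.comp (by fun_prop)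
  rw [← intervalIntegral.integral_sub (hpc2.intervalIntegrable _ _) (hpc.intervalIntegrable _ _)]
  have cK : Continuous (fun z : ℝ × ℝ => ff α b P (z.1 + (2 * ℓ)) z.2 * (P (z.1 + (2 * ℓ)) z.2 - P z.1 z.2)) := by
    apply Continuous.mul
    · exact h.cff (by fun_prop) (by fun_prop)
    · exact (h.contP (by fun_prop) (by fun_prop)).sub (h.contP (by fun_prop) (by fun_prop))
  have cI : Continuous (fun t => ∫ y in (0 : ℝ)..(2 * ℓ),
      ff α b P (t + (2 * ℓ)) y * (P (t + (2 * ℓ)) y - P t y)) := by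
    apply intervalIntegral.continuous_parametric_intervalIntegral_of_continuous'
    exact cK
  have e4 : ∫ t in T..(T + (2 * ℓ)), (psi α ℓ b P (t + (2 * ℓ)) - psi α ℓ b P t) ≤
      ∫ t in T..(T + (2 * ℓ)), (2 * (α + 2) * ∫ y in (0 : ℝ)..(2 * ℓ),
      ff α b P (t + (2 * ℓ)) y * (P (t + (2 * ℓ)) y - P t y)) :=
    intervalIntegral.integral_mono_on (by linarith) ((hpc2.sub hpc).intervalIntegrable _ _)
      ((continuous_const.mul cI).intervalIntegrable _ _) (fun t _ => h.psi_step t)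
  rw [intervalIntegral.integral_const_mul, integral_swap_cont cK] at e4
  have e5 : ∫ y in (0 : ℝ)..(2 * ℓ), ∫ t in T..(T + (2 * ℓ)),
      ff α b P (t + (2 * ℓ)) y * (P (t + (2 * ℓ)) y - P t y) =
      ∫ y in (0 : ℝ)..(2 * ℓ), ∫ t in T..(T + (2 * ℓ)),
        ff α b P (t + (2 * ℓ)) y * (-κ * ∫ r in t..(t + (2 * ℓ)), ff α b P r y) := by
    congr 1
    funext y
    apply intervalIntegral.integral_congr
    intro t ht
    rw [uIcc_of_le (by linarith : T ≤ T + (2 * ℓ))] at ht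
    simp only
    rw [h.P_diff (by linarith [ht.1] : 0 ≤ t) y]
  rw [e5] at e4
  have e6 := mul_le_mul_of_nonneg_left e4 hκ.le
  linarith

/-- The one-step estimate. -/
theorem key_step (h : CharSol κ α ℓ b0 b P) {T M : ℝ} (hT : 0 ≤ T)
    (hM : ∀ t, T ≤ t → ∀ y, |P t y| ≤ M) :
    En ℓ P (T + (2 * ℓ)) * ((En ℓ P (T + (2 * ℓ)) - En ℓ P (T + 2 * (2 * ℓ))) - (En ℓ P T - En ℓ P (T + (2 * ℓ))) -
      8 * (α + 2) * κ ^ 2 * (α + 1) * (2 * ℓ) ^ 2 * ((2 * M) ^ α) ^ 2 *
        (En ℓ P T - En ℓ P (T + 2 * (2 * ℓ)))) ≤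
      -((α + 2) / 2) * (En ℓ P (T + (2 * ℓ)) - En ℓ P (T + 2 * (2 * ℓ))) ^ 2 := by
  have hα := h.apos
  have hℓ := h.lpos
  have hκ := h.kpos
  have hl2 : (0 : ℝ) ≤ 2 * ℓ := by linarith
  have hM0 : 0 ≤ M := (abs_nonneg _).trans (hM T le_rfl 0)
  have hMa : 0 ≤ (2 * M) ^ α := Real.rpow_nonneg (by linarith) α
  -- the functions of `y`
  set F : ℝ → ℝ := fun y => ∫ r in (T + (2 * ℓ))..(T + 2 * (2 * ℓ)), ff α b P r y with hF
  set Fs : ℝ → ℝ := fun y => ∫ r in T..(T + 2 * (2 * ℓ)), |ff α b P r y| with hFs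
  set V : ℝ → ℝ := fun y => ∫ r in T..(T + (2 * ℓ)), |ff α b P r y - ff α b P (r + (2 * ℓ)) y| with hV
  have cff2 : Continuous (fun z : ℝ × ℝ => ff α b P z.2 z.1) := h.cff continuous_snd continuous_fst
  have cF : Continuous F := by
    apply intervalIntegral.continuous_parametric_intervalIntegral_of_continuous'
    exact cff2
  have cFs : Continuous Fs := by
    apply intervalIntegral.continuous_parametric_intervalIntegral_of_continuous'
    exact cff2.abs
  have cV : Continuous V := by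
    apply intervalIntegral.continuous_parametric_intervalIntegral_of_continuous'
    exact (cff2.sub (h.cff (by fun_prop : Continuous fun z : ℝ × ℝ => z.2 + (2 * ℓ))
      continuous_fst)).abs
  have hFs0 : ∀ y, 0 ≤ Fs y := fun y =>
    intervalIntegral.integral_nonneg (by linarith) (fun _ _ => abs_nonneg _)
  have hFsp : Function.Periodic Fs (2 * ℓ) := by
    intro y
    simp only [hFs]
    congr 1
    funext r
    rw [h.ff_per r y]
  set Φ : ℝ := ∫ y in (0 : ℝ)..(2 * ℓ), Fs y with hΦ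
  have hΦ0 : 0 ≤ Φ := intervalIntegral.integral_nonneg hl2 (fun y _ => hFs0 y)
  set S : ℝ := ∫ y in (0 : ℝ)..(2 * ℓ), Fs y ^ 2 with hS
  have hS0 : 0 ≤ S := intervalIntegral.integral_nonneg hl2 (fun y _ => sq_nonneg _)
  set Q : ℝ := ∫ y in (0 : ℝ)..(2 * ℓ), F y ^ 2 with hQ
  have hQ0 : 0 ≤ Q := intervalIntegral.integral_nonneg hl2 (fun y _ => sq_nonneg _)
  have hΦS : Φ ^ 2 ≤ 2 * ℓ * S := by
    have := sq_integral_le hl2 cFs
    rw [sub_zero] at this
    exact this
  -- bound of `S`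
  have hSE : κ * S ≤ 2 * (2 * ℓ) * (2 * M) ^ α * (En ℓ P T - En ℓ P (T + 2 * (2 * ℓ))) := by
    have e1 := h.energy_identity hT (by linarith : T ≤ T + 2 * (2 * ℓ))
    have hpt : ∀ y ∈ Icc (0 : ℝ) (2 * ℓ), Fs y ^ 2 ≤ (2 * (2 * ℓ) * (2 * M) ^ α) *
        ∫ r in T..(T + 2 * (2 * ℓ)), b (y - r) * |P r y - P r (2 * r - y)| ^ (α + 2) := by
      intro y _
      have cfr : Continuous (fun r => ff α b P r y) := h.cff continuous_id continuous_const
      have cDr : Continuous (fun r => b (y - r) * |P r y - P r (2 * r - y)| ^ (α + 2)) :=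
        h.cD continuous_id continuous_const
      have a1 := sq_integral_le (by linarith : T ≤ T + 2 * (2 * ℓ)) cfr.abs
      have a2 : T + 2 * (2 * ℓ) - T = 2 * (2 * ℓ) := by ring
      rw [a2] at a1
      have a3 : ∫ r in T..(T + 2 * (2 * ℓ)), |ff α b P r y| ^ 2 ≤
          ∫ r in T..(T + 2 * (2 * ℓ)), (2 * M) ^ α *
            (b (y - r) * |P r y - P r (2 * r - y)| ^ (α + 2)) := by
        apply intervalIntegral.integral_mono_on (by linarith) ((cfr.abs.pow 2).intervalIntegrable _ _)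
          ((continuous_const.mul cDr).intervalIntegrable _ _)
        intro r hr
        show |ff α b P r y| ^ 2 ≤ (2 * M) ^ α * (b (y - r) * |P r y - P r (2 * r - y)| ^ (α + 2))
        rw [sq_abs]
        have b1 := abs_le.mp (hM r hr.1 y)
        have b2 := abs_le.mp (hM r hr.1 (2 * r - y))
        have b3 : phi α (P r y - P r (2 * r - y)) ^ 2 ≤
            (2 * M) ^ α * |P r y - P r (2 * r - y)| ^ (α + 2) := by
          apply phi_sq_le hα
          rw [abs_le]
          constructor <;> linarith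
        have b4 : b (y - r) ^ 2 ≤ b (y - r) := by
          have := h.bnn (y - r)
          have := h.bhi (y - r)
          nlinarith
        have b5 : 0 ≤ (2 * M) ^ α * |P r y - P r (2 * r - y)| ^ (α + 2) :=
          (sq_nonneg _).trans b3
        unfold ff
        rw [mul_pow]
        calc b (y - r) ^ 2 * phi α (P r y - P r (2 * r - y)) ^ 2 ≤
            b (y - r) ^ 2 * ((2 * M) ^ α * |P r y - P r (2 * r - y)| ^ (α + 2)) :=
              mul_le_mul_of_nonneg_left b3 (sq_nonneg _)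
          _ ≤ b (y - r) * ((2 * M) ^ α * |P r y - P r (2 * r - y)| ^ (α + 2)) :=
              mul_le_mul_of_nonneg_right b4 b5
          _ = _ := by ring
      rw [intervalIntegral.integral_const_mul] at a3
      have a4 := mul_le_mul_of_nonneg_left a3 (by linarith : 0 ≤ 2 * (2 * ℓ))
      simp only [hFs]
      linarith
    have cR : Continuous (fun y => ∫ r in T..(T + 2 * (2 * ℓ)),
        b (y - r) * |P r y - P r (2 * r - y)| ^ (α + 2)) := by
      apply intervalIntegral.continuous_parametric_intervalIntegral_of_continuous'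
      exact h.cD continuous_snd continuous_fst
    have e2 : S ≤ ∫ y in (0 : ℝ)..(2 * ℓ), (2 * (2 * ℓ) * (2 * M) ^ α) *
        ∫ r in T..(T + 2 * (2 * ℓ)), b (y - r) * |P r y - P r (2 * r - y)| ^ (α + 2) :=
      intervalIntegral.integral_mono_on hl2 ((cFs.pow 2).intervalIntegrable _ _)
        ((continuous_const.mul cR).intervalIntegrable _ _) hpt
    rw [intervalIntegral.integral_const_mul] at e2
    have e3 : ∫ y in (0 : ℝ)..(2 * ℓ), ∫ r in T..(T + 2 * (2 * ℓ)),
        b (y - r) * |P r y - P r (2 * r - y)| ^ (α + 2) =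
        ∫ r in T..(T + 2 * (2 * ℓ)), psi α ℓ b P r := by
      rw [integral_swap_cont (F := fun y r => b (y - r) * |P r y - P r (2 * r - y)| ^ (α + 2))]
      · rfl
      · exact h.cD continuous_snd continuous_fst
    rw [e3] at e2
    rw [e1]
    have := mul_le_mul_of_nonneg_left e2 hκ.le
    linarith
  -- bound of `V`
  have hVb : ∀ y, V y ≤ (α + 1) * (2 * M) ^ α * κ * ((2 * ℓ) * Fs y + Φ) := by
    intro y
    have hG : ∀ r, T ≤ r → r ≤ T + (2 * ℓ) → ∀ z, |P (r + (2 * ℓ)) z - P r z| ≤ κ * Fs z := by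
      intro r hr1 hr2 z
      have cfr : Continuous (fun r => |ff α b P r z|) := (h.cff continuous_id continuous_const).abs
      rw [h.P_diff (by linarith) z, abs_mul, abs_neg, abs_of_pos hκ]
      apply mul_le_mul_of_nonneg_left _ hκ.le
      calc |∫ s in r..(r + (2 * ℓ)), ff α b P s z| ≤ ∫ s in r..(r + (2 * ℓ)), |ff α b P s z| :=
            intervalIntegral.abs_integral_le_integral_abs (by linarith)
        _ ≤ ∫ s in T..(T + 2 * (2 * ℓ)), |ff α b P s z| := by
            apply intervalIntegral.integral_mono_interval hr1 (by linarith) (by linarith)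
            · exact Eventually.of_forall (fun _ => abs_nonneg _)
            · exact cfr.intervalIntegrable _ _
    have hpt : ∀ r ∈ Icc T (T + (2 * ℓ)), |ff α b P r y - ff α b P (r + (2 * ℓ)) y| ≤
        (α + 1) * (2 * M) ^ α * (κ * Fs y) +
          (α + 1) * (2 * M) ^ α * κ * Fs (2 * r - (y - 2 * (2 * ℓ))) := by
      intro r hr
      have b1 := abs_le.mp (hM r hr.1 y)
      have b2 := abs_le.mp (hM r hr.1 (2 * r - y))
      have b3 := abs_le.mp (hM (r + (2 * ℓ)) (by linarith [hr.1]) y)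
      have b4 := abs_le.mp (hM (r + (2 * ℓ)) (by linarith [hr.1]) (2 * (r + (2 * ℓ)) - y))
      have a1 := phi_sub_le hα (a := P r y - P r (2 * r - y))
        (b := P (r + (2 * ℓ)) y - P (r + (2 * ℓ)) (2 * (r + (2 * ℓ)) - y)) (M := 2 * M)
        (by rw [abs_le]; constructor <;> linarith) (by rw [abs_le]; constructor <;> linarith)
      rw [h.D_shift] at a1
      have a2 := hG r hr.1 hr.2 y
      have a3 := hG r hr.1 hr.2 (2 * (r + (2 * ℓ)) - y)
      have a4 : |P (r + (2 * ℓ)) y - P r y - (P (r + (2 * ℓ)) (2 * (r + (2 * ℓ)) - y) - P r (2 * (r + (2 * ℓ)) - y))| ≤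
          κ * Fs y + κ * Fs (2 * (r + (2 * ℓ)) - y) :=
        (abs_sub _ _).trans (add_le_add a2 a3)
      have a5 : 0 ≤ (α + 1) * (2 * M) ^ α := mul_nonneg (by linarith) hMa
      have a6 := mul_le_mul_of_nonneg_left a4 a5
      have a7 : 2 * (r + (2 * ℓ)) - y = 2 * r - (y - 2 * (2 * ℓ)) := by ring
      rw [a7] at a6 a1
      rw [abs_sub_comm]
      unfold ff
      have a8 : b (y - (r + (2 * ℓ))) = b (y - r) := by
        rw [← h.bper (y - (r + (2 * ℓ)))]
        congr 1; ring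
      rw [a7, a8, ← mul_sub, abs_mul, abs_of_nonneg (h.bnn _)]
      calc _ ≤ 1 * |phi α (P (r + (2 * ℓ)) y - P (r + (2 * ℓ)) (2 * r - (y - 2 * (2 * ℓ)))) -
              phi α (P r y - P r (2 * r - y))| :=
            mul_le_mul_of_nonneg_right (h.bhi _) (abs_nonneg _)
        _ ≤ _ := (one_mul _).le.trans a1
        _ ≤ _ := a6
        _ = _ := by ring
    have cFr : Continuous (fun r => Fs (2 * r - (y - 2 * (2 * ℓ)))) := cFs.comp (by fun_prop)
    have cc : Continuous (fun r => |ff α b P r y - ff α b P (r + (2 * ℓ)) y|) :=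
      ((h.cff continuous_id continuous_const).sub (h.cff (by fun_prop) continuous_const)).abs
    have e1 : V y ≤ ∫ r in T..(T + (2 * ℓ)), ((α + 1) * (2 * M) ^ α * (κ * Fs y) +
        (α + 1) * (2 * M) ^ α * κ * Fs (2 * r - (y - 2 * (2 * ℓ)))) :=
      intervalIntegral.integral_mono_on (by linarith) (cc.intervalIntegrable _ _)
        ((continuous_const.add (continuous_const.mul cFr)).intervalIntegrable _ _) hpt
    have cFr2 : Continuous (fun r => (α + 1) * (2 * M) ^ α * κ *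
        Fs (2 * r - (y - 2 * (2 * ℓ)))) :=
      continuous_const.mul cFr
    have cc0 : Continuous (fun _ : ℝ => (α + 1) * (2 * M) ^ α * (κ * Fs y)) := continuous_const
    rw [intervalIntegral.integral_add (cc0.intervalIntegrable _ _)
      (cFr2.intervalIntegrable _ _), intervalIntegral.integral_const,
      intervalIntegral.integral_const_mul,
      intervalIntegral.integral_comp_mul_sub (f := Fs) (two_ne_zero)] at e1
    have e2 : 2 * (T + (2 * ℓ)) - (y - 2 * (2 * ℓ)) =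
        (2 * T - (y - 2 * (2 * ℓ))) + 2 * ℓ + 2 * ℓ := by ring
    have e2' : ∫ x in (2 * T - (y - 2 * (2 * ℓ)))..((2 * T - (y - 2 * (2 * ℓ))) + 2 * ℓ + 2 * ℓ),
        Fs x = 2 * Φ := by
      rw [← intervalIntegral.integral_add_adjacent_intervals
        (a := 2 * T - (y - 2 * (2 * ℓ))) (b := (2 * T - (y - 2 * (2 * ℓ))) + 2 * ℓ)
        (cFs.intervalIntegrable _ _) (cFs.intervalIntegrable _ _),
        hFsp.intervalIntegral_add_eq (2 * T - (y - 2 * (2 * ℓ))) 0,
        hFsp.intervalIntegral_add_eq ((2 * T - (y - 2 * (2 * ℓ))) + 2 * ℓ) 0, zero_add, ← hΦ]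
      ring
    rw [e2, e2'] at e1
    simp only [smul_eq_mul] at e1
    refine e1.trans (le_of_eq ?_)
    ring
  -- integrate the `J` bound
  have hJ : ∫ y in (0 : ℝ)..(2 * ℓ), ∫ t in T..(T + (2 * ℓ)),
        ff α b P (t + (2 * ℓ)) y * (-κ * ∫ r in t..(t + (2 * ℓ)), ff α b P r y) ≤
      -κ * Q + κ * ((α + 1) * (2 * M) ^ α * κ * (2 * (2 * ℓ) * S)) := by
    have cIn : Continuous (fun z : ℝ × ℝ => ∫ r in z.2..(z.2 + (2 * ℓ)), ff α b P r z.1) := by
      have e1 : (fun z : ℝ × ℝ => ∫ r in z.2..(z.2 + (2 * ℓ)), ff α b P r z.1) =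
          fun z : ℝ × ℝ => ∫ r in (0 : ℝ)..(2 * ℓ), ff α b P (r + z.2) z.1 := by
        funext z
        rw [intervalIntegral.integral_comp_add_right (fun r => ff α b P r z.1)]
        congr 1 <;> ring
      rw [e1]
      apply intervalIntegral.continuous_parametric_intervalIntegral_of_continuous'
      exact h.cff (by fun_prop) (by fun_prop)
    have cJ : Continuous (fun y => ∫ t in T..(T + (2 * ℓ)),
        ff α b P (t + (2 * ℓ)) y * (-κ * ∫ r in t..(t + (2 * ℓ)), ff α b P r y)) := by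
      apply intervalIntegral.continuous_parametric_intervalIntegral_of_continuous'
      apply Continuous.mul
      · exact h.cff (by fun_prop) (by fun_prop)
      · exact continuous_const.mul cIn
    have hpt : ∀ y ∈ Icc (0 : ℝ) (2 * ℓ), ∫ t in T..(T + (2 * ℓ)),
        ff α b P (t + (2 * ℓ)) y * (-κ * ∫ r in t..(t + (2 * ℓ)), ff α b P r y) ≤
        -κ * F y ^ 2 + κ * ((α + 1) * (2 * M) ^ α * κ) * ((2 * ℓ) * Fs y ^ 2 + Φ * Fs y) := by
      intro y _
      have a1 := J_bound (g := fun r => ff α b P r y) (h.cff continuous_id continuous_const)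
        (T := T) hκ (by linarith : 0 < 2 * ℓ)
      have a2 : V y * Fs y ≤ (α + 1) * (2 * M) ^ α * κ * ((2 * ℓ) * Fs y + Φ) * Fs y :=
        mul_le_mul_of_nonneg_right (hVb y) (hFs0 y)
      have a3 := mul_le_mul_of_nonneg_left a2 hκ.le
      refine a1.trans ?_
      simp only [hF]
      have a4 : κ * ((∫ r in T..(T + (2 * ℓ)), |ff α b P r y - ff α b P (r + (2 * ℓ)) y|) *
          ∫ r in T..(T + 2 * (2 * ℓ)), |ff α b P r y|) = κ * (V y * Fs y) := rfl
      rw [a4]
      linarith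
    have c1 : Continuous (fun y => -κ * F y ^ 2) := continuous_const.mul (cF.pow 2)
    have c2 : Continuous (fun y => (2 * ℓ) * Fs y ^ 2) := continuous_const.mul (cFs.pow 2)
    have c3 : Continuous (fun y => Φ * Fs y) := continuous_const.mul cFs
    have c4 : Continuous (fun y => (2 * ℓ) * Fs y ^ 2 + Φ * Fs y) := c2.add c3
    have c5 : Continuous (fun y => κ * ((α + 1) * (2 * M) ^ α * κ) *
      ((2 * ℓ) * Fs y ^ 2 + Φ * Fs y)) := continuous_const.mul c4
    have e1 : ∫ y in (0 : ℝ)..(2 * ℓ), ∫ t in T..(T + (2 * ℓ)),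
        ff α b P (t + (2 * ℓ)) y * (-κ * ∫ r in t..(t + (2 * ℓ)), ff α b P r y) ≤
        ∫ y in (0 : ℝ)..(2 * ℓ), (-κ * F y ^ 2 + κ * ((α + 1) * (2 * M) ^ α * κ) *
          ((2 * ℓ) * Fs y ^ 2 + Φ * Fs y)) :=
      intervalIntegral.integral_mono_on hl2 (cJ.intervalIntegrable _ _)
        ((c1.add c5).intervalIntegrable _ _) hpt
    rw [intervalIntegral.integral_add (c1.intervalIntegrable _ _) (c5.intervalIntegrable _ _),
      intervalIntegral.integral_const_mul, intervalIntegral.integral_const_mul,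
      intervalIntegral.integral_add (c2.intervalIntegrable _ _) (c3.intervalIntegrable _ _),
      intervalIntegral.integral_const_mul, intervalIntegral.integral_const_mul,
      ← hQ, ← hS, ← hΦ] at e1
    have e2 : κ * ((α + 1) * (2 * M) ^ α * κ) * ((2 * ℓ) * S + Φ * Φ) ≤
        κ * ((α + 1) * (2 * M) ^ α * κ) * (2 * (2 * ℓ) * S) := by
      apply mul_le_mul_of_nonneg_left
      · nlinarith
      · have : 0 ≤ (α + 1) * (2 * M) ^ α := mul_nonneg (by linarith) hMa
        positivity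
    linarith
  have hdrop := h.drop_step hT
  -- the relation of `Q` with the drop
  have hQe : (En ℓ P (T + (2 * ℓ)) - En ℓ P (T + 2 * (2 * ℓ))) ^ 2 ≤ 4 * κ ^ 2 * (En ℓ P (T + (2 * ℓ)) * Q) := by
    have cP : Continuous (fun y => P (T + (2 * ℓ)) y) := h.contP continuous_const continuous_id
    have cP2 : Continuous (fun y => P (T + 2 * (2 * ℓ)) y) := h.contP continuous_const continuous_id
    have e1 : En ℓ P (T + (2 * ℓ)) - En ℓ P (T + 2 * (2 * ℓ)) ≤
        2 * κ * ∫ y in (0 : ℝ)..(2 * ℓ), P (T + (2 * ℓ)) y * F y := by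
      have a1 : En ℓ P (T + (2 * ℓ)) - En ℓ P (T + 2 * (2 * ℓ)) =
          ∫ y in (0 : ℝ)..(2 * ℓ), (P (T + (2 * ℓ)) y ^ 2 - P (T + 2 * (2 * ℓ)) y ^ 2) := by
        have cPs : Continuous (fun y => P (T + (2 * ℓ)) y ^ 2) := cP.pow 2
        have cPs2 : Continuous (fun y => P (T + 2 * (2 * ℓ)) y ^ 2) := cP2.pow 2
        unfold En
        rw [intervalIntegral.integral_sub (cPs.intervalIntegrable _ _)
          (cPs2.intervalIntegrable _ _)]
      rw [a1, ← intervalIntegral.integral_const_mul]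
      apply intervalIntegral.integral_mono_on hl2
        (((cP.pow 2).sub (cP2.pow 2)).intervalIntegrable _ _)
        ((continuous_const.mul (cP.mul cF)).intervalIntegrable _ _)
      intro y _
      show P (T + (2 * ℓ)) y ^ 2 - P (T + 2 * (2 * ℓ)) y ^ 2 ≤ 2 * κ * (P (T + (2 * ℓ)) y * F y)
      have a2 : P (T + 2 * (2 * ℓ)) y = P (T + (2 * ℓ)) y - κ * F y := by
        have := h.P_diff (by linarith : 0 ≤ T + (2 * ℓ)) y
        have a3 : T + (2 * ℓ) + (2 * ℓ) = T + 2 * (2 * ℓ) := by ring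
        rw [a3] at this
        simp only [hF]
        linarith
      rw [a2]
      have : 0 ≤ (κ * F y) ^ 2 := sq_nonneg _
      nlinarith
    have e2 : 0 ≤ En ℓ P (T + (2 * ℓ)) - En ℓ P (T + 2 * (2 * ℓ)) := by
      have := h.En_anti (by linarith : 0 ≤ T + (2 * ℓ)) (by linarith : T + (2 * ℓ) ≤ T + 2 * (2 * ℓ))
      linarith
    have e3 := sq_integral_mul_le hl2 cP cF
    have e4 : (En ℓ P (T + (2 * ℓ)) - En ℓ P (T + 2 * (2 * ℓ))) ^ 2 ≤
        (2 * κ * ∫ y in (0 : ℝ)..(2 * ℓ), P (T + (2 * ℓ)) y * F y) ^ 2 :=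
      pow_le_pow_left₀ e2 e1 2
    have e5 : (2 * κ * ∫ y in (0 : ℝ)..(2 * ℓ), P (T + (2 * ℓ)) y * F y) ^ 2 =
        4 * κ ^ 2 * (∫ y in (0 : ℝ)..(2 * ℓ), P (T + (2 * ℓ)) y * F y) ^ 2 := by ring
    rw [e5] at e4
    refine e4.trans ?_
    apply mul_le_mul_of_nonneg_left e3 (by positivity)
  set e : ℝ := En ℓ P T - En ℓ P (T + (2 * ℓ)) with he
  set e' : ℝ := En ℓ P (T + (2 * ℓ)) - En ℓ P (T + 2 * (2 * ℓ)) with he'
  have hee : En ℓ P T - En ℓ P (T + 2 * (2 * ℓ)) = e + e' := by rw [he, he']; ring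
  rw [hee] at hSE ⊢
  have hE0 := h.En_nonneg (T + (2 * ℓ))
  -- combine
  have f1 : e' - e ≤ 2 * (α + 2) * κ *
      (-κ * Q + κ * ((α + 1) * (2 * M) ^ α * κ * (2 * (2 * ℓ) * S))) :=
    hdrop.trans (mul_le_mul_of_nonneg_left hJ (by positivity))
  have f2 : (α + 1) * (2 * M) ^ α * (2 * (2 * ℓ)) * (κ * S) ≤
      (α + 1) * (2 * M) ^ α * (2 * (2 * ℓ)) * (2 * (2 * ℓ) * (2 * M) ^ α * (e + e')) := by
    apply mul_le_mul_of_nonneg_left hSE
    have : 0 ≤ (α + 1) * (2 * M) ^ α := mul_nonneg (by linarith) hMa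
    positivity
  have f3 : e' - e - 8 * (α + 2) * κ ^ 2 * (α + 1) * (2 * ℓ) ^ 2 * ((2 * M) ^ α) ^ 2 * (e + e') ≤
      -(2 * (α + 2) * κ ^ 2 * Q) := by
    have f4 := mul_le_mul_of_nonneg_left f2 (by positivity : 0 ≤ 2 * (α + 2) * κ ^ 2)
    nlinarith
  have f5 := mul_le_mul_of_nonneg_left f3 hE0
  have f6 := mul_le_mul_of_nonneg_left hQe (by positivity : 0 ≤ (α + 2) / 2)
  nlinarith

end CharSol

end Pool.Agent.Helper72_Shell
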